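import Pool.Agent.H93Cone.Weights5

/-!
A real eigenbasis of functionals and dominating elements.
-/

namespace Pool.Agent.H93Cone

open Finset Module

variable {r n : ℕ} {φ : (Fin r → ℤ) → Matrix (Fin n) (Fin n) ℤ}

lemma sum_Lam (h : IsRep φ) [Fintype (Chars φ)] (hcard : Fintype.card (Chars φ) = n)
    (z : Fin r → ℤ) : ∑ χ, Lam h z χ = 0 := by
  classical
  let e : Chars φ ≃ Fin n := Fintype.equivOfCardEq (by rw [hcard, Fintype.card_fin])
  let P : Matrix (Fin n) (Fin n) ℂ := fun i => eigv (e.symm i)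
  let C := (φ z).map (Int.cast : ℤ → ℂ)
  let D : Matrix (Fin n) (Fin n) ℂ := Matrix.diagonal (fun i => (e.symm i).1 z)
  have hP : LinearIndependent ℂ (fun i => P i) := (eigv_indep h).comp e.symm e.symm.injective
  have hunit : IsUnit P := (Matrix.linearIndependent_rows_iff_isUnit).1 hP
  have hdet : P.det ≠ 0 := ((Matrix.isUnit_iff_isUnit_det P).1 hunit).ne_zero
  have hPC : P * C = D * P := by
    ext i j
    have h1 := congrFun (lc_eigv (e.symm i) z) j
    rw [lc_apply] at h1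
    rw [Matrix.diagonal_mul]
    exact h1
  have h2 : C.det = ∏ i, (e.symm i).1 z := by
    have h3 := congrArg Matrix.det hPC
    rw [Matrix.det_mul, Matrix.det_mul, Matrix.det_diagonal, mul_comm] at h3
    exact mul_right_cancel₀ hdet h3
  have h4 := norm_det h z
  rw [show ((φ z).map (Int.cast : ℤ → ℂ)).det = C.det from rfl, h2, norm_prod] at h4
  have h5 : ∑ i, Real.log ‖(e.symm i).1 z‖ = 0 := by
    rw [← Real.log_prod (fun i _ => norm_ne_zero_iff.2 (char_ne_zero h _ z)), h4, Real.log_one]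
  rw [← h5]
  exact (Equiv.sum_comp e.symm (fun χ => Lam h z χ)).symm

lemma span_eq_sumzero (h : IsRep φ) [Fintype (Chars φ)] (hr : r + 1 = n)
    (hcard : Fintype.card (Chars φ) = n)
    (hfin : finrank ℝ (Submodule.span ℝ (Set.range (Lam h))) = r) (v : Chars φ → ℝ)
    (hv : ∑ χ, v χ = 0) : v ∈ Submodule.span ℝ (Set.range (Lam h)) := by
  classical
  let s : (Chars φ → ℝ) →ₗ[ℝ] ℝ :=
    { toFun := fun v => ∑ χ, v χ
      map_add' := fun a b => by simp [Finset.sum_add_distrib]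
      map_smul' := fun c a => by simp [Finset.mul_sum] }
  have hs : ∀ v, s v = ∑ χ, v χ := fun _ => rfl
  have hle : Submodule.span ℝ (Set.range (Lam h)) ≤ LinearMap.ker s := by
    rw [Submodule.span_le]
    rintro _ ⟨z, rfl⟩
    exact sum_Lam h hcard z
  have hne : Nonempty (Chars φ) := by
    rw [← Fintype.card_pos_iff, hcard]; omega
  have hsurj : Function.Surjective s := by
    intro y
    obtain ⟨χ0⟩ := hne
    refine ⟨Pi.single χ0 y, ?_⟩
    rw [hs]
    simp
  have h1 := LinearMap.finrank_range_add_finrank_ker s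
  rw [LinearMap.range_eq_top.2 hsurj, finrank_top, finrank_self, finrank_fintype_fun_eq_card,
    hcard] at h1
  have h2 : Submodule.span ℝ (Set.range (Lam h)) = LinearMap.ker s := by
    apply Submodule.eq_of_le_of_finrank_eq hle
    omega
  rw [h2]
  exact hv

lemma exists_dominating (h : IsRep φ) [Fintype (Chars φ)] (hr : r + 1 = n) (hn : 2 ≤ n)
    (hcard : Fintype.card (Chars φ) = n)
    (hfin : finrank ℝ (Submodule.span ℝ (Set.range (Lam h))) = r) (χ₀ : Chars φ) :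
    ∃ z, 0 < Lam h z χ₀ ∧ ∀ χ, χ ≠ χ₀ → Lam h z χ < 0 := by
  classical
  set v : Chars φ → ℝ := fun χ => (if χ = χ₀ then (n : ℝ) else 0) - 1 with hv
  have hsum : ∑ χ, v χ = 0 := by
    rw [hv, Finset.sum_sub_distrib]
    simp [hcard]
  obtain ⟨C, hC⟩ := lam_mem_span h v (span_eq_sumzero h hr hcard hfin v hsum)
  obtain ⟨z, hz⟩ := hC (|C| + 1)
  have hCle := le_abs_self C
  have hCnn := abs_nonneg C
  refine ⟨z, ?_, fun χ hχ => ?_⟩
  · have h1 := (abs_le.1 (hz χ₀)).1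
    have h2 : v χ₀ = (n : ℝ) - 1 := by simp [hv]
    rw [h2] at h1
    have h3 : (2 : ℝ) ≤ n := by exact_mod_cast hn
    nlinarith
  · have h1 := (abs_le.1 (hz χ)).2
    have h2 : v χ = -1 := by simp [hv, hχ]
    rw [h2] at h1
    linarith

lemma map_conj_eq {n : ℕ} (g : Matrix (Fin n) (Fin n) ℤ) (η : Fin n → ℂ) :
    lc g (fun j => (starRingEnd ℂ) (η j)) = fun j => (starRingEnd ℂ) (lc g η j) := by
  funext j
  rw [lc_apply, lc_apply]
  simp [Matrix.vecMul, dotProduct]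

lemma char_real (h : IsRep φ) [Fintype (Chars φ)]
    (hdom : ∀ χ₀ : Chars φ, ∃ z, 0 < Lam h z χ₀ ∧ ∀ χ, χ ≠ χ₀ → Lam h z χ < 0)
    (χ : Chars φ) (z : Fin r → ℤ) : ((χ.1 z).re : ℂ) = χ.1 z := by
  have hmem : (fun z => (starRingEnd ℂ) (χ.1 z)) ∈ Chars φ := by
    refine ⟨fun j => (starRingEnd ℂ) (eigv χ j), ?_, ?_⟩
    · intro h0
      apply eigv_ne χ
      funext j
      have := congrFun h0 j
      simpa using this
    · intro z
      rw [map_conj_eq, lc_eigv]
      funext j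
      simp
  set χ' : Chars φ := ⟨_, hmem⟩ with hχ'
  have heq : χ' = χ := by
    by_contra hne
    obtain ⟨w, h1, h2⟩ := hdom χ
    have h3 := h2 χ' hne
    rw [Lam_apply] at h1 h3
    have h4 : ‖χ'.1 w‖ = ‖χ.1 w‖ := by
      show ‖(starRingEnd ℂ) (χ.1 w)‖ = _
      exact RCLike.norm_conj _
    rw [h4] at h3
    linarith
  have h5 : (starRingEnd ℂ) (χ.1 z) = χ.1 z := congrFun (congrArg Subtype.val heq) z
  exact Complex.conj_eq_iff_re.1 h5

/-- real left action -/
noncomputable def lr {n : ℕ} (g : Matrix (Fin n) (Fin n) ℤ) : (Fin n → ℝ) →ₗ[ℝ] (Fin n → ℝ) :=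
  Matrix.toLin' (g.map (Int.cast : ℤ → ℝ)).transpose

lemma lr_apply {n : ℕ} (g : Matrix (Fin n) (Fin n) ℤ) (ξ : Fin n → ℝ) :
    lr g ξ = Matrix.vecMul ξ (g.map (Int.cast : ℤ → ℝ)) := by
  rw [lr, Matrix.toLin'_apply, Matrix.mulVec_transpose]

lemma lr_mul {n : ℕ} (g h : Matrix (Fin n) (Fin n) ℤ) (ξ : Fin n → ℝ) :
    lr (g * h) ξ = lr h (lr g ξ) := by
  have h1 : (g * h).map (Int.cast : ℤ → ℝ)
      = g.map (Int.cast : ℤ → ℝ) * h.map (Int.cast : ℤ → ℝ) :=
    Matrix.map_mul (f := Int.castRingHom ℝ) (L := g) (M := h)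
  rw [lr_apply, lr_apply, lr_apply, h1, Matrix.vecMul_vecMul]

lemma dot_act {n : ℕ} (g : Matrix (Fin n) (Fin n) ℤ) (ξ x : Fin n → ℝ) :
    ξ ⬝ᵥ act g x = lr g ξ ⬝ᵥ x := by
  rw [act_apply, Matrix.dotProduct_mulVec, lr_apply]

lemma exists_real_eigv (h : IsRep φ) [Fintype (Chars φ)]
    (hre : ∀ (χ : Chars φ) (z : Fin r → ℤ), ((χ.1 z).re : ℂ) = χ.1 z) (χ : Chars φ) :
    ∃ ξ : Fin n → ℝ, ξ ≠ 0 ∧ ∀ z, lr (φ z) ξ = (χ.1 z).re • ξ := by
  have hrepart : ∀ z, lr (φ z) (fun j => (eigv χ j).re)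
      = (χ.1 z).re • (fun j => (eigv χ j).re) := by
    intro z
    funext j
    have h1 := congrFun (lc_eigv χ z) j
    rw [lc_apply, ← hre χ z] at h1
    have h2 := congrArg Complex.re h1
    rw [lr_apply]
    simp only [Matrix.vecMul, dotProduct, Matrix.map_apply, Pi.smul_apply, smul_eq_mul,
      Complex.re_sum, Complex.mul_re, Complex.intCast_re, Complex.intCast_im, mul_zero, sub_zero,
      Complex.ofReal_re, Complex.ofReal_im, zero_mul] at h2 ⊢
    exact h2
  have himpart : ∀ z, lr (φ z) (fun j => (eigv χ j).im)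
      = (χ.1 z).re • (fun j => (eigv χ j).im) := by
    intro z
    funext j
    have h1 := congrFun (lc_eigv χ z) j
    rw [lc_apply, ← hre χ z] at h1
    have h2 := congrArg Complex.im h1
    rw [lr_apply]
    simp only [Matrix.vecMul, dotProduct, Matrix.map_apply, Pi.smul_apply, smul_eq_mul,
      Complex.im_sum, Complex.mul_im, Complex.intCast_re, Complex.intCast_im, mul_zero, zero_add,
      Complex.ofReal_re, Complex.ofReal_im, zero_mul, add_zero] at h2 ⊢
    exact h2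
  by_cases h0 : (fun j => (eigv χ j).re) = 0
  · refine ⟨fun j => (eigv χ j).im, fun h1 => eigv_ne χ ?_, himpart⟩
    funext j
    exact Complex.ext (congrFun h0 j) (congrFun h1 j)
  · exact ⟨_, h0, hrepart⟩

/-- Main structural result: a real basis of eigenfunctionals, each of which is dominated by
some group element. -/
theorem weights_main (hr : r + 1 = n) (hn : 2 ≤ n) (h : IsRep φ) (x : Fin n → ℚ)
    (hx : ∀ z, Nq φ z (Nq φ z x) = 0 → z = 0) :
    ∃ ξ : Fin n → (Fin n → ℝ), LinearIndependent ℝ ξ ∧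
      ∀ i, ∃ (z : Fin r → ℤ) (τ : Fin n → ℝ), (∀ j, 0 < τ j) ∧ 1 < τ i ∧ (∀ j, j ≠ i → τ j < 1) ∧
        ∀ j y, ξ j ⬝ᵥ act (φ z) y = τ j * (ξ j ⬝ᵥ y) := by
  classical
  haveI : Finite (Chars φ) := chars_finite h
  haveI : Fintype (Chars φ) := Fintype.ofFinite _
  obtain ⟨hcard, hfin⟩ := chars_card hr h x hx
  have hdom := exists_dominating h hr hn hcard hfin
  have hre := char_real h hdom
  choose ξ hξ0 hξ using exists_real_eigv h hre
  have hind : LinearIndependent ℝ ξ := by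
    refine indep_of_chars (fun w => lr (φ w)) ?_ (fun (χ : Chars φ) z => (χ.1 z).re) ?_ ξ hξ0 hξ
    · intro i j v
      show lr (φ i) (lr (φ j) v) = lr (φ j) (lr (φ i) v)
      rw [← lr_mul, ← lr_mul, h.comm]
    · intro χ χ' hχ
      apply Subtype.ext
      funext z
      rw [← hre χ z, ← hre χ' z]
      exact congrArg _ (congrFun hχ z)
  let e : Fin n ≃ Chars φ := Fintype.equivOfCardEq (by rw [hcard, Fintype.card_fin])
  refine ⟨fun i => ξ (e i), hind.comp e e.injective, fun i => ?_⟩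
  obtain ⟨z, hz1, hz2⟩ := hdom (e i)
  have hnorm : ∀ χ : Chars φ, ‖χ.1 z‖ ^ 2 = ((χ.1 (2 • z)).re) := by
    intro χ
    rw [char_nsmul h]
    have h1 : ‖χ.1 z‖ = |(χ.1 z).re| := by
      conv_lhs => rw [← hre χ z]
      exact Complex.norm_real _
    rw [h1, sq_abs]
    have h2 : χ.1 z ^ 2 = (((χ.1 z).re ^ 2 : ℝ) : ℂ) := by
      push_cast
      rw [hre χ z]
    rw [h2, Complex.ofReal_re]
  refine ⟨2 • z, fun j => ((e j).1 (2 • z)).re, fun j => ?_, ?_, fun j hj => ?_, fun j y => ?_⟩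
  · show 0 < ((e j).1 (2 • z)).re
    rw [← hnorm]
    exact pow_pos (norm_pos_iff.2 (char_ne_zero h _ z)) 2
  · show 1 < ((e i).1 (2 • z)).re
    rw [← hnorm]
    rw [Lam_apply] at hz1
    have h1 : 1 < ‖(e i).1 z‖ := (Real.log_pos_iff (norm_nonneg _)).1 hz1
    exact one_lt_pow₀ h1 two_ne_zero
  · show ((e j).1 (2 • z)).re < 1
    rw [← hnorm]
    have h2 := hz2 (e j) (fun hh => hj (e.injective hh))
    rw [Lam_apply] at h2
    have h3 : ‖(e j).1 z‖ < 1 :=
      (Real.log_neg_iff (norm_pos_iff.2 (char_ne_zero h _ z))).1 h2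
    exact pow_lt_one₀ (norm_nonneg _) h3 two_ne_zero
  · rw [dot_act, hξ, smul_dotProduct, smul_eq_mul]

end Pool.Agent.H93Cone
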