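import Pool.Agent.H93Cone.Weights6

/-!
A closed salient cone preserved by dominating diagonalisable elements is simplicial.
-/

namespace Pool.Agent.H93Cone

open Finset Module Filter Topology

/-- Data of a real basis of eigenfunctionals with dominating elements in `G`. -/
structure Dominated {n : ℕ} (G : Set (Matrix (Fin n) (Fin n) ℤ)) (ξ : Fin n → (Fin n → ℝ)) :
    Prop where
  indep : LinearIndependent ℝ ξ
  dom : ∀ i, ∃ g ∈ G, ∃ τ : Fin n → ℝ, (∀ j, 0 < τ j) ∧ 1 < τ i ∧ (∀ j, j ≠ i → τ j < 1) ∧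
    ∀ j y, ξ j ⬝ᵥ act g y = τ j * (ξ j ⬝ᵥ y)

/-- dual basis -/
noncomputable def dualb {n : ℕ} (ξ : Fin n → (Fin n → ℝ)) (i : Fin n) : Fin n → ℝ :=
  ((Matrix.of ξ)⁻¹).mulVec (Pi.single i 1)

lemma dualb_expand {n : ℕ} {ξ : Fin n → (Fin n → ℝ)} (hξ : LinearIndependent ℝ ξ)
    (y : Fin n → ℝ) : y = ∑ j, (ξ j ⬝ᵥ y) • dualb ξ j := by
  have hunit : IsUnit (Matrix.of ξ) := (Matrix.linearIndependent_rows_iff_isUnit).1 hξ
  have hdet : IsUnit (Matrix.of ξ).det := (Matrix.isUnit_iff_isUnit_det _).1 hunit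
  have h1 : ((Matrix.of ξ)⁻¹).mulVec ((Matrix.of ξ).mulVec y) = y := by
    rw [Matrix.mulVec_mulVec, Matrix.nonsing_inv_mul _ hdet, Matrix.one_mulVec]
  have h2 : (Matrix.of ξ).mulVec y = ∑ j, (ξ j ⬝ᵥ y) • (Pi.single j (1 : ℝ) : Fin n → ℝ) := by
    funext i
    simp [Finset.sum_apply, Pi.single_apply, Matrix.mulVec]
  conv_lhs => rw [← h1, h2]
  have h3 := map_sum ((Matrix.of ξ)⁻¹.mulVecLin)
    (fun j => (ξ j ⬝ᵥ y) • (Pi.single j (1 : ℝ) : Fin n → ℝ)) Finset.univ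
  rw [Matrix.mulVecLin_apply] at h3
  rw [h3]
  refine Finset.sum_congr rfl fun j _ => ?_
  rw [map_smul, Matrix.mulVecLin_apply]
  rfl

lemma dot_dualb {n : ℕ} {ξ : Fin n → (Fin n → ℝ)} (hξ : LinearIndependent ℝ ξ)
    (i j : Fin n) : ξ j ⬝ᵥ dualb ξ i = if j = i then 1 else 0 := by
  have hunit : IsUnit (Matrix.of ξ) := (Matrix.linearIndependent_rows_iff_isUnit).1 hξ
  have hdet : IsUnit (Matrix.of ξ).det := (Matrix.isUnit_iff_isUnit_det _).1 hunit
  have h1 : (Matrix.of ξ).mulVec (dualb ξ i) = Pi.single i 1 := by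
    rw [dualb, Matrix.mulVec_mulVec, Matrix.mul_nonsing_inv _ hdet, Matrix.one_mulVec]
  have h2 := congrFun h1 j
  rw [Pi.single_apply] at h2
  exact h2

variable {n : ℕ} {G : Set (Matrix (Fin n) (Fin n) ℤ)} {ξ : Fin n → (Fin n → ℝ)}

lemma act_pow_dot (g : Matrix (Fin n) (Fin n) ℤ) (τ : Fin n → ℝ)
    (hg : ∀ j y, ξ j ⬝ᵥ act g y = τ j * (ξ j ⬝ᵥ y)) (k : ℕ) (j : Fin n) (y : Fin n → ℝ) :
    ξ j ⬝ᵥ act (g ^ k) y = τ j ^ k * (ξ j ⬝ᵥ y) := by
  induction k with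
  | zero => simp
  | succ k ih => rw [act_pow_apply, hg, ih, pow_succ]; ring

lemma act_pow_mem (K : PointedCone ℝ (Fin n → ℝ)) (g : Matrix (Fin n) (Fin n) ℤ)
    (hg : ∀ x ∈ K, act g x ∈ K) (k : ℕ) (x : Fin n → ℝ) (hx : x ∈ K) : act (g ^ k) x ∈ K := by
  induction k with
  | zero => simpa using hx
  | succ k ih => rw [act_pow_apply]; exact hg _ ih

/-- Limits of normalised orbits. -/
lemma limit_mem (hD : Dominated G ξ) (K : PointedCone ℝ (Fin n → ℝ))
    (hcl : IsClosed (K : Set (Fin n → ℝ))) (hG : ∀ g ∈ G, ∀ x ∈ K, act g x ∈ K)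
    (i : Fin n) (x : Fin n → ℝ) (hx : x ∈ K) : (ξ i ⬝ᵥ x) • dualb ξ i ∈ K := by
  classical
  obtain ⟨g, hg, τ, hpos, h1, hlt, heig⟩ := hD.dom i
  have hmem : ∀ k : ℕ, ((τ i) ^ k)⁻¹ • act (g ^ k) x ∈ (K : Set (Fin n → ℝ)) := fun k =>
    PointedCone.smul_mem _ (inv_nonneg.2 (pow_pos (hpos i) k).le)
      (act_pow_mem K g (hG g hg) k x hx)
  have hexp : ∀ k : ℕ, ((τ i) ^ k)⁻¹ • act (g ^ k) x
      = ∑ j, ((τ j / τ i) ^ k * (ξ j ⬝ᵥ x)) • dualb ξ j := by
    intro k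
    conv_lhs => rw [dualb_expand hD.indep (act (g ^ k) x)]
    rw [Finset.smul_sum]
    refine Finset.sum_congr rfl fun j _ => ?_
    rw [act_pow_dot g τ heig, smul_smul]
    congr 1
    rw [div_pow]; ring
  have hlim : Tendsto (fun k : ℕ => ((τ i) ^ k)⁻¹ • act (g ^ k) x) atTop
      (𝓝 (∑ j, (if j = i then (ξ i ⬝ᵥ x) else 0) • dualb ξ j)) := by
    simp only [hexp]
    refine tendsto_finsetSum _ fun j _ => ?_
    by_cases hj : j = i
    · subst hj
      have : ∀ k : ℕ, ((τ j / τ j) ^ k * (ξ j ⬝ᵥ x)) • dualb ξ j = (ξ j ⬝ᵥ x) • dualb ξ j := by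
        intro k; rw [div_self (hpos j).ne', one_pow, one_mul]
      simp only [this, if_true]
      exact tendsto_const_nhds
    · simp only [hj, if_false, zero_smul]
      have h3 : Tendsto (fun k : ℕ => (τ j / τ i) ^ k) atTop (𝓝 0) := by
        refine tendsto_pow_atTop_nhds_zero_of_lt_one (div_pos (hpos j) (hpos i)).le ?_
        rw [div_lt_one (hpos i)]
        linarith [hlt j hj]
      have h4 : Tendsto (fun k : ℕ => ((τ j / τ i) ^ k * (ξ j ⬝ᵥ x)) • dualb ξ j) atTop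
          (𝓝 ((0 * (ξ j ⬝ᵥ x)) • dualb ξ j)) := (h3.mul_const _).smul_const _
      simpa using h4
  have hfin := hcl.mem_of_tendsto hlim (Filter.Eventually.of_forall hmem)
  have hsum : (∑ j, (if j = i then (ξ i ⬝ᵥ x) else 0) • dualb ξ j) = (ξ i ⬝ᵥ x) • dualb ξ i := by
    rw [Finset.sum_eq_single i]
    · simp
    · intro j _ hj; simp [hj]
    · intro h; exact absurd (Finset.mem_univ i) h
  rw [hsum] at hfin
  exact hfin

/-- After sign changes the cone is the positive orthant of the eigenbasis. -/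
lemma exists_orthant (hD : Dominated G ξ) (K : PointedCone ℝ (Fin n → ℝ))
    (hcl : IsClosed (K : Set (Fin n → ℝ))) (hsal : ∀ x, x ∈ K → -x ∈ K → x = 0)
    (hint : (interior (K : Set (Fin n → ℝ))).Nonempty)
    (hG : ∀ g ∈ G, ∀ x ∈ K, act g x ∈ K) :
    ∃ ζ : Fin n → (Fin n → ℝ), Dominated G ζ ∧ ∀ x, x ∈ K ↔ ∀ i, 0 ≤ ζ i ⬝ᵥ x := by
  classical
  have hne : ∀ i, dualb ξ i ≠ 0 := by
    intro i h0
    have := dot_dualb hD.indep i i
    rw [h0, dotProduct_zero] at this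
    simp at this
  -- a point of the cone off each hyperplane
  have hoff : ∀ i, ∃ x ∈ K, ξ i ⬝ᵥ x ≠ 0 := by
    intro i
    obtain ⟨x₀, hx₀⟩ := hint
    by_contra hcon
    push Not at hcon
    have hx0K := interior_subset hx₀
    have h1 : Tendsto (fun t : ℝ => x₀ + t • dualb ξ i) (𝓝[>] 0) (𝓝 (x₀ + (0 : ℝ) • dualb ξ i)) := by
      refine Tendsto.mono_left ?_ nhdsWithin_le_nhds
      exact (continuous_const.add (continuous_id.smul continuous_const)).tendsto 0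
    rw [zero_smul, add_zero] at h1
    have h2 := h1.eventually (isOpen_interior.mem_nhds hx₀)
    obtain ⟨t, ht, htpos⟩ := (h2.and self_mem_nhdsWithin).exists
    have h3 := hcon _ (interior_subset ht)
    have h4 := hcon _ hx0K
    rw [dotProduct_add, h4, zero_add, dotProduct_smul, dot_dualb hD.indep] at h3
    simp only [if_true, smul_eq_mul, mul_one] at h3
    exact (ne_of_gt htpos) h3
  -- the sign
  have hsign : ∀ i, ∃ σ : ℝ, (σ = 1 ∨ σ = -1) ∧ (∀ x ∈ K, 0 ≤ σ * (ξ i ⬝ᵥ x)) ∧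
      σ • dualb ξ i ∈ K := by
    intro i
    obtain ⟨x, hx, hx0⟩ := hoff i
    rcases lt_or_gt_of_ne hx0 with hneg | hpos
    · have h1 : -dualb ξ i ∈ K := by
        have h2 := limit_mem hD K hcl hG i x hx
        have h3 : (-(ξ i ⬝ᵥ x))⁻¹ • ((ξ i ⬝ᵥ x) • dualb ξ i) ∈ K :=
          PointedCone.smul_mem _ (inv_nonneg.2 (by linarith)) h2
        rw [smul_smul] at h3
        have h4 : (-(ξ i ⬝ᵥ x))⁻¹ * (ξ i ⬝ᵥ x) = -1 := by
          rw [inv_neg, neg_mul, inv_mul_cancel₀ hx0]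
        rw [h4, neg_smul, one_smul] at h3
        exact h3
      refine ⟨-1, Or.inr rfl, fun y hy => ?_, by rw [neg_smul, one_smul]; exact h1⟩
      by_contra hcon
      push Not at hcon
      have h5 : 0 < ξ i ⬝ᵥ y := by linarith
      have h6 := limit_mem hD K hcl hG i y hy
      have h7 : (ξ i ⬝ᵥ y)⁻¹ • ((ξ i ⬝ᵥ y) • dualb ξ i) ∈ K :=
        PointedCone.smul_mem _ (inv_nonneg.2 h5.le) h6
      rw [smul_smul, inv_mul_cancel₀ h5.ne', one_smul] at h7
      exact hne i (hsal _ h7 h1)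
    · have h1 : dualb ξ i ∈ K := by
        have h2 := limit_mem hD K hcl hG i x hx
        have h3 : ((ξ i ⬝ᵥ x))⁻¹ • ((ξ i ⬝ᵥ x) • dualb ξ i) ∈ K :=
          PointedCone.smul_mem _ (inv_nonneg.2 hpos.le) h2
        rwa [smul_smul, inv_mul_cancel₀ hx0, one_smul] at h3
      refine ⟨1, Or.inl rfl, fun y hy => ?_, by rw [one_smul]; exact h1⟩
      by_contra hcon
      push Not at hcon
      have h5 : ξ i ⬝ᵥ y < 0 := by linarith
      have h6 := limit_mem hD K hcl hG i y hy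
      have h7 : (-(ξ i ⬝ᵥ y))⁻¹ • ((ξ i ⬝ᵥ y) • dualb ξ i) ∈ K :=
        PointedCone.smul_mem _ (inv_nonneg.2 (by linarith)) h6
      rw [smul_smul] at h7
      have h8 : (-(ξ i ⬝ᵥ y))⁻¹ * (ξ i ⬝ᵥ y) = -1 := by
        rw [inv_neg, neg_mul, inv_mul_cancel₀ h5.ne]
      rw [h8, neg_smul, one_smul] at h7
      exact hne i (hsal _ h1 h7)
  choose σ hσ1 hσ2 hσ3 using hsign
  refine ⟨fun i => σ i • ξ i, ⟨?_, ?_⟩, fun x => ⟨fun hx i => ?_, fun hx => ?_⟩⟩
  · have h1 : ∀ i, σ i ≠ 0 := by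
      intro i; rcases hσ1 i with h | h <;> rw [h] <;> norm_num
    exact hD.indep.units_smul (fun i => Units.mk0 (σ i) (h1 i))
  · intro i
    obtain ⟨g, hg, τ, h1, h2, h3, h4⟩ := hD.dom i
    refine ⟨g, hg, τ, h1, h2, h3, fun j y => ?_⟩
    rw [smul_dotProduct, smul_dotProduct, h4, smul_eq_mul, smul_eq_mul]
    ring
  · rw [smul_dotProduct, smul_eq_mul]
    exact hσ2 i x hx
  · rw [dualb_expand hD.indep x]
    refine Submodule.sum_mem _ fun j _ => ?_
    have h1 : (ξ j ⬝ᵥ x) • dualb ξ j = (σ j * (ξ j ⬝ᵥ x)) • (σ j • dualb ξ j) := by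
      rw [smul_smul]
      congr 1
      rcases hσ1 j with h | h <;> rw [h] <;> ring
    rw [h1]
    refine PointedCone.smul_mem _ ?_ (hσ3 j)
    have := hx j
    rwa [smul_dotProduct, smul_eq_mul] at this

lemma continuous_dot {n : ℕ} (p : Fin n → ℝ) : Continuous (fun x : Fin n → ℝ => p ⬝ᵥ x) := by
  unfold dotProduct
  exact continuous_finsetSum _ fun i _ => continuous_const.mul (continuous_apply i)

/-- Interior points of the orthant. -/
lemma mem_interior_iff (hD : Dominated G ξ) (K : PointedCone ℝ (Fin n → ℝ))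
    (hK : ∀ x, x ∈ K ↔ ∀ i, 0 ≤ ξ i ⬝ᵥ x) (x : Fin n → ℝ) :
    x ∈ interior (K : Set (Fin n → ℝ)) ↔ ∀ i, 0 < ξ i ⬝ᵥ x := by
  constructor
  · intro hx i
    by_contra hcon
    have h0 : ξ i ⬝ᵥ x = 0 :=
      le_antisymm (not_lt.1 hcon) ((hK x).1 (interior_subset hx) i)
    have h1 : Tendsto (fun t : ℝ => x - t • dualb ξ i) (𝓝[>] 0) (𝓝 (x - (0 : ℝ) • dualb ξ i)) := by
      refine Tendsto.mono_left ?_ nhdsWithin_le_nhds
      exact (continuous_const.sub (continuous_id.smul continuous_const)).tendsto 0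
    rw [zero_smul, sub_zero] at h1
    have h2 := h1.eventually (isOpen_interior.mem_nhds hx)
    obtain ⟨t, ht, htpos⟩ := (h2.and self_mem_nhdsWithin).exists
    have h3 := (hK _).1 (interior_subset ht) i
    rw [dotProduct_sub, h0, zero_sub, dotProduct_smul, dot_dualb hD.indep] at h3
    simp only [if_true, smul_eq_mul, mul_one] at h3
    have : (0 : ℝ) < t := htpos
    linarith
  · intro hx
    rw [mem_interior]
    refine ⟨⋂ i, {y | 0 < ξ i ⬝ᵥ y}, ?_, ?_, ?_⟩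
    · intro y hy
      rw [Set.mem_iInter] at hy
      exact (hK y).2 fun i => (hy i).le
    · exact isOpen_iInter_of_finite fun i => isOpen_lt continuous_const (continuous_dot _)
    · exact Set.mem_iInter.2 hx

/-- Orbits of boundary points under a dominating element tend to zero. -/
lemma tendsto_zero (hD : Dominated G ξ) (i : Fin n) (x : Fin n → ℝ) (hx : ξ i ⬝ᵥ x = 0) :
    ∃ g ∈ G, Tendsto (fun k : ℕ => act (g ^ k) x) atTop (𝓝 0) := by
  obtain ⟨g, hg, τ, hpos, h1, hlt, heig⟩ := hD.dom i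
  refine ⟨g, hg, ?_⟩
  have hexp : ∀ k : ℕ, act (g ^ k) x = ∑ j, (τ j ^ k * (ξ j ⬝ᵥ x)) • dualb ξ j := by
    intro k
    conv_lhs => rw [dualb_expand hD.indep (act (g ^ k) x)]
    refine Finset.sum_congr rfl fun j _ => ?_
    rw [act_pow_dot g τ heig]
  simp only [hexp]
  have h0 : (0 : Fin n → ℝ) = ∑ j : Fin n, (0 : Fin n → ℝ) := by simp
  rw [h0]
  refine tendsto_finsetSum _ fun j _ => ?_
  by_cases hj : j = i
  · subst hj
    simp only [hx, mul_zero, zero_smul]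
    exact tendsto_const_nhds
  · have h3 : Tendsto (fun k : ℕ => τ j ^ k) atTop (𝓝 0) :=
      tendsto_pow_atTop_nhds_zero_of_lt_one (hpos j).le (hlt j hj)
    have h4 : Tendsto (fun k : ℕ => (τ j ^ k * (ξ j ⬝ᵥ x)) • dualb ξ j) atTop
        (𝓝 ((0 * (ξ j ⬝ᵥ x)) • dualb ξ j)) := (h3.mul_const _).smul_const _
    simpa using h4

lemma act_intVec (g : Matrix (Fin n) (Fin n) ℤ) (d : Fin n → ℤ) :
    act g (intVec d) = intVec (g.mulVec d) := by
  funext i
  simp [act_apply, Matrix.mulVec, dotProduct, intVec]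

/-- A nonzero lattice point never lies on the boundary. -/
lemma lattice_pos (hD : Dominated G ξ) (hinv : ∀ g ∈ G, Function.Injective (act g))
    (K : PointedCone ℝ (Fin n → ℝ)) (hK : ∀ x, x ∈ K ↔ ∀ i, 0 ≤ ξ i ⬝ᵥ x)
    (d : Fin n → ℤ) (hd : intVec d ∈ K) (hd0 : d ≠ 0) (i : Fin n) : 0 < ξ i ⬝ᵥ intVec d := by
  by_contra hcon
  have h0 : ξ i ⬝ᵥ intVec d = 0 := le_antisymm (not_lt.1 hcon) ((hK _).1 hd i)
  obtain ⟨g, hg, hlim⟩ := tendsto_zero hD i _ h0
  have h1 : ∀ᶠ k : ℕ in atTop, ‖act (g ^ k) (intVec d)‖ < 1 := by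
    have := hlim.norm
    rw [norm_zero] at this
    exact this.eventually (gt_mem_nhds one_pos)
  obtain ⟨k, hk⟩ := h1.exists
  have h2 : ∀ k : ℕ, ∃ e : Fin n → ℤ, act (g ^ k) (intVec d) = intVec e := fun k =>
    ⟨(g ^ k).mulVec d, act_intVec _ _⟩
  obtain ⟨e, he⟩ := h2 k
  rw [he] at hk
  have h3 : e = 0 := by
    funext j
    have h4 : |(e j : ℝ)| < 1 := lt_of_le_of_lt (norm_le_pi_norm (intVec e) j) hk
    have h5 : |e j| < 1 := by exact_mod_cast h4
    exact Int.abs_lt_one_iff.1 h5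
  have h6 : ∀ k : ℕ, ∀ y, act (g ^ k) y = 0 → y = 0 := by
    intro k
    induction k with
    | zero => intro y hy; simpa using hy
    | succ k ih =>
      intro y hy
      rw [act_pow_apply] at hy
      exact ih y (hinv g hg (by rw [hy, map_zero]))
  have h7 : intVec d = 0 := h6 k _ (by
    rw [he, h3]; funext j; simp [intVec])
  apply hd0
  funext j
  have := congrFun h7 j
  simpa [intVec] using this

end Pool.Agent.H93Cone
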