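import Pool.Agent.H93Cone.Domain2

/-!
Assembly: the cone theorem for groups containing a free abelian subgroup of rank `n - 1`.
-/

namespace Pool.Agent.H93Cone

open Finset Module Filter Topology

variable {n : ℕ}

/-- rational points are dense -/
lemma exists_rat_point {U : Set (Fin n → ℝ)} (hU : IsOpen U) (hne : U.Nonempty) :
    ∃ x : Fin n → ℚ, ratVec x ∈ U := by
  obtain ⟨x₀, hx₀⟩ := hne
  obtain ⟨ε, hε, hball⟩ := Metric.isOpen_iff.1 hU x₀ hx₀
  have h : ∀ i, ∃ r : ℚ, |(r : ℝ) - x₀ i| < ε := by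
    intro i
    obtain ⟨r, h1, h2⟩ := exists_rat_btwn (show x₀ i - ε < x₀ i + ε by linarith)
    exact ⟨r, by rw [abs_lt]; constructor <;> linarith⟩
  choose x hx using h
  refine ⟨x, hball ?_⟩
  rw [mem_ball_iff_norm, pi_norm_lt_iff hε]
  intro i
  exact hx i

lemma ratVec_qa (g : Matrix (Fin n) (Fin n) ℤ) (x : Fin n → ℚ) :
    ratVec (qa g x) = act g (ratVec x) := by
  funext i
  show (((g.map (Int.cast : ℤ → ℚ)).mulVec x i : ℚ) : ℝ) = _
  simp [act_apply, Matrix.mulVec, dotProduct, ratVec]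

/-- The squarefree condition on an interior rational point. -/
lemma no_square {r : ℕ} {φ : (Fin r → ℤ) → Matrix (Fin n) (Fin n) ℤ} (h : IsRep φ)
    (hinj : Function.Injective φ)
    (K : PointedCone ℝ (Fin n → ℝ))
    (hcl : IsClosed (K : Set (Fin n → ℝ))) (hsal : ∀ x, x ∈ K → -x ∈ K → x = 0)
    (hφ : ∀ z, ∀ x ∈ K, act (φ z) x ∈ K) (x : Fin n → ℚ)
    (hx : ratVec x ∈ interior (K : Set (Fin n → ℝ))) (z : Fin r → ℤ)
    (hz : Nq φ z (Nq φ z x) = 0) : z = 0 := by
  classical
  set w : Fin n → ℚ := Nq φ z x with hw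
  have hfix : qa (φ z) w = w := by
    have : qa (φ z) w - w = 0 := hz
    exact sub_eq_zero.1 this
  have hstep : qa (φ z) x = x + w := by
    have : w = qa (φ z) x - x := rfl
    rw [this]; abel
  have hpow : ∀ k : ℕ, qa (φ (k • z)) x = x + (k : ℚ) • w ∧ qa (φ (k • z)) w = w := by
    intro k
    induction k with
    | zero => simp [h.zero, qa_one]
    | succ k ih =>
      have e : φ ((k + 1) • z) = φ z * φ (k • z) := by
        rw [succ_nsmul, add_comm, h.add]
      rw [e, qa_mul, qa_mul, ih.1, ih.2, map_add, map_smul, hfix, hstep]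
      refine ⟨?_, rfl⟩
      push_cast
      module
  have hneg : ∀ k : ℕ, qa (φ (-(k • z))) x = x - (k : ℚ) • w := by
    intro k
    have h1 : ∀ v, qa (φ (-(k • z))) (qa (φ (k • z)) v) = v := by
      intro v
      rw [← qa_mul, ← h.add, neg_add_cancel, h.zero, qa_one]
    have h2 := h1 x
    rw [(hpow k).1, map_add, map_smul] at h2
    have h3 := h1 w
    rw [(hpow k).2] at h3
    rw [h3] at h2
    rw [eq_sub_iff_add_eq]; exact h2
  have hxK : ratVec x ∈ K := interior_subset hx
  -- recession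
  have hrec : ∀ v : Fin n → ℝ, (∀ k : ℕ, ratVec x + (k : ℝ) • v ∈ K) → v ∈ K := by
    intro v hv
    have h1 : Tendsto (fun k : ℕ => ((k : ℝ) + 1)⁻¹ • (ratVec x + ((k : ℝ) + 1) • v)) atTop
        (𝓝 ((0 : ℝ) • ratVec x + v)) := by
      have h2 : Tendsto (fun k : ℕ => ((k : ℝ) + 1)⁻¹) atTop (𝓝 0) := by
        have := tendsto_one_div_add_atTop_nhds_zero_nat (𝕜 := ℝ)
        simpa [one_div] using this
      have h3 : Tendsto (fun k : ℕ => ((k : ℝ) + 1)⁻¹ • ratVec x + v) atTop
          (𝓝 ((0 : ℝ) • ratVec x + v)) := (h2.smul_const _).add_const _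
      refine h3.congr fun k => ?_
      have : ((k : ℝ) + 1) ≠ 0 := by positivity
      rw [smul_add, smul_smul, inv_mul_cancel₀ this, one_smul]
    rw [zero_smul, zero_add] at h1
    refine hcl.mem_of_tendsto h1 (Filter.Eventually.of_forall fun k => ?_)
    refine PointedCone.smul_mem _ (by positivity) ?_
    have := hv (k + 1)
    push_cast at this
    exact this
  have hwK : ratVec w ∈ K := hrec _ fun k => by
    have h1 := hφ (k • z) _ hxK
    rw [← ratVec_qa, (hpow k).1, ratVec_add, ratVec_smul] at h1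
    simpa using h1
  have hwK' : -ratVec w ∈ K := hrec _ fun k => by
    have h1 := hφ (-(k • z)) _ hxK
    rw [← ratVec_qa, hneg k, ratVec_sub, ratVec_smul] at h1
    rw [smul_neg, ← sub_eq_add_neg]
    simpa using h1
  have hw0 : w = 0 := by
    have h1 := hsal _ hwK hwK'
    funext i
    have h2 : ((w i : ℚ) : ℝ) = 0 := congrFun h1 i
    have h3 : w i = 0 := by exact_mod_cast h2
    exact h3
  -- stabiliser is finite
  by_contra hz0
  obtain ⟨q, c, hc, hq⟩ := exists_pos_rat K hcl hsal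
  obtain ⟨ε, hε, hb⟩ : ∃ ε > 0, Metric.closedBall (ratVec x) ε ⊆ (K : Set (Fin n → ℝ)) := by
    obtain ⟨ε, hε, h⟩ := Metric.nhds_basis_closedBall.mem_iff.1 (isOpen_interior.mem_nhds hx)
    exact ⟨ε, hε, h.trans interior_subset⟩
  have hfin := finite_matrices K q hc hε hq (ratVec q ⬝ᵥ ratVec x)
  have hinf : (Set.range (fun k : ℕ => φ (k • z))).Infinite := by
    refine Set.infinite_range_of_injective ?_
    intro a b hab
    have h1 := hinj hab
    have h2 : ((a : ℤ) - b) • z = 0 := by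
      rw [sub_smul, sub_eq_zero]
      simpa using h1
    rcases smul_eq_zero.1 h2 with h3 | h3
    · omega
    · exact absurd h3 hz0
  refine hinf (hfin.subset ?_)
  rintro _ ⟨k, rfl⟩
  refine ⟨hφ _, ratVec x, hb, ?_⟩
  rw [← ratVec_qa, (hpow k).1, hw0, smul_zero, add_zero]

/-- Main abstract theorem in dimension at least two. -/
theorem main_ge_two (hn : 2 ≤ n)
    (Nef Eff : PointedCone ℝ (Fin n → ℝ)) (D : Set (Fin n → ℤ))
    (hNef : IsClosed (Nef : Set (Fin n → ℝ)))
    (hample : (interior (Nef : Set (Fin n → ℝ))).Nonempty)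
    (hEff : Eff = PointedCone.hull ℝ (intVec '' D))
    (hampleEff : ∀ x ∈ interior (Nef : Set (Fin n → ℝ)), x ∈ Eff)
    (hsal : ∀ x, x ∈ closure (Eff : Set (Fin n → ℝ)) → -x ∈ closure (Eff : Set (Fin n → ℝ)) →
      x = 0)
    (A : Subgroup (GL (Fin n) ℤ)) (hA : ∀ γ ∈ A, ∀ x ∈ Nef, act γ.val x ∈ Nef)
    (hAE : ∀ γ ∈ A, ∀ x ∈ Eff, act γ.val x ∈ Eff)
    (φ : Multiplicative (Fin (n - 1) → ℤ) →* A) (hφ : Function.Injective φ) :
    ∃ S : Finset (Fin n → ℚ),
      (∀ y ∈ PointedCone.hull ℝ (ratVec '' (S : Set (Fin n → ℚ))), y ∈ Nef ∧ y ∈ Eff) ∧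
      (∀ x, x ∈ Nef → x ∈ Eff → ∃ γ ∈ A,
        ∃ y ∈ PointedCone.hull ℝ (ratVec '' (S : Set (Fin n → ℚ))), act γ.val y = x) ∧
      (∀ γ ∈ A, γ ≠ 1 → Disjoint
        (interior (PointedCone.hull ℝ (ratVec '' (S : Set (Fin n → ℚ))) : Set (Fin n → ℝ)))
        (interior (act γ.val ''
          (PointedCone.hull ℝ (ratVec '' (S : Set (Fin n → ℚ))) : Set (Fin n → ℝ))))) := by
  classical
  -- the nef cone is contained in the closed effective cone, hence salient
  have hNE : ∀ x ∈ Nef, x ∈ closure (Eff : Set (Fin n → ℝ)) := by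
    intro x hx
    have h1 : closure (interior (Nef : Set (Fin n → ℝ))) = closure (Nef : Set (Fin n → ℝ)) :=
      (PointedCone.convex Nef).closure_interior_eq_closure_of_nonempty_interior hample
    have h2 : x ∈ closure (interior (Nef : Set (Fin n → ℝ))) := by
      rw [h1]; exact subset_closure hx
    exact closure_mono (fun y hy => hampleEff y hy) h2
  have hsalN : ∀ x, x ∈ Nef → -x ∈ Nef → x = 0 := fun x h1 h2 => hsal x (hNE x h1) (hNE _ h2)
  -- the representation
  let ψ : (Fin (n - 1) → ℤ) → Matrix (Fin n) (Fin n) ℤ := fun z =>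
    ((φ (Multiplicative.ofAdd z) : A) : GL (Fin n) ℤ).val
  have hψ : IsRep ψ := by
    refine ⟨?_, fun z w => ?_⟩
    · show ((φ (Multiplicative.ofAdd 0) : A) : GL (Fin n) ℤ).val = 1
      rw [ofAdd_zero, map_one]; rfl
    · show ((φ (Multiplicative.ofAdd (z + w)) : A) : GL (Fin n) ℤ).val = _
      rw [ofAdd_add, map_mul]; rfl
  have hψinj : Function.Injective ψ := by
    intro z w hzw
    have h1 : φ (Multiplicative.ofAdd z) = φ (Multiplicative.ofAdd w) :=
      Subtype.ext (Units.ext hzw)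
    exact Multiplicative.ofAdd.injective (hφ h1)
  have hψN : ∀ z, ∀ x ∈ Nef, act (ψ z) x ∈ Nef := fun z x hx => hA _ (φ _).2 x hx
  obtain ⟨x, hx⟩ := exists_rat_point isOpen_interior hample
  obtain ⟨ξ, hξ1, hξ2⟩ := weights_main (show (n - 1) + 1 = n by omega) hn hψ x
    (fun z hz => no_square hψ hψinj Nef hNef hsalN hψN x hx z hz)
  have hD : Dominated (mats A) ξ := by
    refine ⟨hξ1, fun i => ?_⟩
    obtain ⟨z, τ, h1, h2, h3, h4⟩ := hξ2 i
    exact ⟨ψ z, ⟨_, (φ _).2, rfl⟩, τ, h1, h2, h3, h4⟩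
  have hAm : ∀ g ∈ mats A, ∀ x ∈ Nef, act g x ∈ Nef := by
    rintro _ ⟨γ, hγ, rfl⟩ x hx
    exact hA γ hγ x hx
  obtain ⟨ζ, hDζ, hζ⟩ := exists_orthant hD Nef hNef hsalN hample hAm
  have hint := mem_interior_iff hDζ Nef hζ
  -- the effective cone is contained in the nef cone
  have hEN : ∀ y ∈ Eff, y ∈ Nef := by
    intro y hy
    rw [hζ]
    intro i
    by_contra hneg
    push Not at hneg
    have hEm : ∀ g ∈ mats A, ∀ x ∈ Eff.closure, act g x ∈ Eff.closure := by
      rintro _ ⟨γ, hγ, rfl⟩ x hx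
      exact map_mem_closure (act_continuous _) hx (fun w hw => hAE γ hγ w hw)
    have h1 := limit_mem hDζ Eff.closure isClosed_closure hEm i y (subset_closure hy)
    have h2 : -dualb ζ i ∈ Eff.closure := by
      have h3 : (-(ζ i ⬝ᵥ y))⁻¹ • ((ζ i ⬝ᵥ y) • dualb ζ i) ∈ Eff.closure :=
        PointedCone.smul_mem _ (inv_nonneg.2 (by linarith)) h1
      rw [smul_smul] at h3
      have h4 : (-(ζ i ⬝ᵥ y))⁻¹ * (ζ i ⬝ᵥ y) = -1 := by
        rw [inv_neg, neg_mul, inv_mul_cancel₀ hneg.ne]
      rw [h4, neg_smul, one_smul] at h3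
      exact h3
    have h5 : dualb ζ i ∈ Nef := by
      rw [hζ]
      intro j
      rw [dot_dualb hDζ.indep]
      split_ifs <;> norm_num
    have h6 := hsal _ (hNE _ h5) h2
    have h7 := dot_dualb hDζ.indep i i
    rw [h6, dotProduct_zero] at h7
    simp at h7
  have hinv : ∀ g ∈ mats A, Function.Injective (act g) := by
    rintro _ ⟨γ, _, rfl⟩
    exact act_injective γ
  -- effective classes are zero or interior
  have hEint : ∀ y ∈ Eff, y = 0 ∨ ∀ i, 0 < ζ i ⬝ᵥ y := by
    intro y hy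
    rw [hEff] at hy
    induction hy using Submodule.span_induction with
    | mem y hy =>
      obtain ⟨d, hd, rfl⟩ := hy
      by_cases hd0 : d = 0
      · left; subst hd0; funext i; simp [intVec]
      · right
        intro i
        refine lattice_pos hDζ hinv Nef hζ d (hEN _ ?_) hd0 i
        rw [hEff]
        exact Submodule.subset_span ⟨d, hd, rfl⟩
    | zero => left; rfl
    | add y z _ _ hy hz =>
      rcases hy with rfl | hy
      · rw [zero_add]; exact hz
      · rcases hz with rfl | hz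
        · rw [add_zero]; right; exact hy
        · right; intro i; rw [dotProduct_add]; exact add_pos (hy i) (hz i)
    | smul a y _ hy =>
      rcases hy with rfl | hy
      · left; exact smul_zero a
      · rcases eq_or_lt_of_le a.2 with h0 | hpos
        · left
          have : a • y = (a : ℝ) • y := rfl
          rw [this, ← h0, zero_smul]
        · right
          intro i
          have : a • y = (a : ℝ) • y := rfl
          rw [this, dotProduct_smul, smul_eq_mul]
          exact mul_pos hpos (hy i)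
  obtain ⟨S, hS1, hS2, hS3⟩ := dirichlet Nef hNef hsalN hample A hA ζ hDζ hζ
  refine ⟨S, fun y hy => ?_, fun x hxN hxE => ?_, hS3⟩
  · rcases hS1 y hy with rfl | h
    · exact ⟨Submodule.zero_mem _, Submodule.zero_mem _⟩
    · exact ⟨interior_subset h, hampleEff y h⟩
  · rcases hEint x hxE with rfl | h
    · exact ⟨1, A.one_mem, 0, Submodule.zero_mem _, map_zero _⟩
    · exact hS2 x ((hint x).2 h)

end Pool.Agent.H93Cone
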