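import Pool.Agent.H93Cone.MW

/-!
Basic estimates for a closed salient convex cone with interior points and integer matrices
preserving it.
-/

namespace Pool.Agent.H93Cone

open Finset

lemma act_apply {n : ℕ} (g : Matrix (Fin n) (Fin n) ℤ) (x : Fin n → ℝ) :
    act g x = (g.map (Int.cast : ℤ → ℝ)).mulVec x := rfl

@[simp] lemma act_one {n : ℕ} : act (1 : Matrix (Fin n) (Fin n) ℤ) = LinearMap.id := by
  ext x i
  simp [act]

lemma act_mul {n : ℕ} (g h : Matrix (Fin n) (Fin n) ℤ) : act (g * h) = act g ∘ₗ act h := by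
  apply LinearMap.ext
  intro x
  show ((g * h).map (Int.cast : ℤ → ℝ)).mulVec x = _
  have : (g * h).map (Int.cast : ℤ → ℝ) = g.map (Int.cast : ℤ → ℝ) * h.map (Int.cast : ℤ → ℝ) := by
    have := Matrix.map_mul (f := Int.castRingHom ℝ) (L := g) (M := h)
    exact this
  rw [this, ← Matrix.mulVec_mulVec]
  rfl

lemma act_mul_apply {n : ℕ} (g h : Matrix (Fin n) (Fin n) ℤ) (x : Fin n → ℝ) :
    act (g * h) x = act g (act h x) := by
  rw [act_mul]; rfl

lemma act_pow_apply {n : ℕ} (g : Matrix (Fin n) (Fin n) ℤ) (k : ℕ) (x : Fin n → ℝ) :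
    act (g ^ (k + 1)) x = act g (act (g ^ k) x) := by
  rw [pow_succ', act_mul_apply]

lemma act_continuous {n : ℕ} (g : Matrix (Fin n) (Fin n) ℤ) : Continuous (act g) :=
  LinearMap.continuous_of_finiteDimensional _

lemma act_single {n : ℕ} (g : Matrix (Fin n) (Fin n) ℤ) (i j : Fin n) :
    act g (Pi.single j 1) i = (g i j : ℝ) := by
  simp [act_apply]

/-- A closed salient cone admits a strictly positive functional. -/
lemma exists_pos_functional {n : ℕ} (K : PointedCone ℝ (Fin n → ℝ))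
    (hcl : IsClosed (K : Set (Fin n → ℝ)))
    (hsal : ∀ x, x ∈ K → -x ∈ K → x = 0) :
    ∃ (f : StrongDual ℝ (Fin n → ℝ)) (c : ℝ), 0 < c ∧ ∀ x ∈ K, c * ‖x‖ ≤ f x := by
  classical
  -- separation
  have hsep : ∀ v : Fin n → ℝ, v ∉ K →
      ∃ f : StrongDual ℝ (Fin n → ℝ), (∀ x ∈ K, 0 ≤ f x) ∧ f v < 0 := by
    intro v hv
    obtain ⟨f, u, h1, h2⟩ := geometric_hahn_banach_point_closed (PointedCone.convex K) hcl hv
    have hu : u < 0 := by
      have := h2 0 (Submodule.zero_mem _)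
      simpa using this
    refine ⟨f, fun x hx => ?_, by linarith⟩
    by_contra hneg
    push Not at hneg
    have hk : (u / f x + 1) • x ∈ K := by
      refine PointedCone.smul_mem _ ?_ hx
      have : 0 ≤ u / f x := div_nonneg_of_nonpos hu.le hneg.le
      linarith
    have := h2 _ hk
    rw [map_smul, smul_eq_mul, add_mul, div_mul_cancel₀ _ hneg.ne] at this
    linarith
  set S : Set (Fin n → ℝ) := (K : Set (Fin n → ℝ)) ∩ Metric.sphere 0 1 with hS
  have hSc : IsCompact S := (isCompact_sphere _ _).inter_left hcl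
  have hx : ∀ x : S, ∃ f : StrongDual ℝ (Fin n → ℝ), (∀ y ∈ K, 0 ≤ f y) ∧ 0 < f x := by
    rintro ⟨x, hxK, hx1⟩
    have hne : -x ∉ K := by
      intro h
      have := hsal x hxK h
      rw [this] at hx1
      simp at hx1
    obtain ⟨f, h1, h2⟩ := hsep _ hne
    refine ⟨f, h1, ?_⟩
    simp only [map_neg] at h2
    simpa using h2
  choose F hF1 hF2 using hx
  obtain ⟨t, ht⟩ := hSc.elim_finite_subcover (fun x : S => {y | 0 < F x y})
    (fun x => isOpen_lt continuous_const (F x).continuous)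
    (fun y hy => Set.mem_iUnion.2 ⟨⟨y, hy⟩, hF2 ⟨y, hy⟩⟩)
  set f : StrongDual ℝ (Fin n → ℝ) := ∑ x ∈ t, F x with hf
  have hfpos : ∀ y ∈ S, 0 < f y := by
    intro y hy
    obtain ⟨x, hx⟩ := Set.mem_iUnion.1 (ht hy)
    obtain ⟨hxt, hxy⟩ := Set.mem_iUnion.1 hx
    rw [hf, _root_.sum_apply]
    exact Finset.sum_pos' (fun x _ => hF1 x y hy.1) ⟨x, hxt, hxy⟩
  by_cases hne : S.Nonempty
  · obtain ⟨y0, hy0, hmin⟩ := hSc.exists_isMinOn hne f.continuous.continuousOn
    refine ⟨f, f y0, hfpos y0 hy0, fun x hx => ?_⟩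
    by_cases h0 : x = 0
    · simp [h0]
    · have hn : 0 < ‖x‖ := norm_pos_iff.2 h0
      have hmem : ‖x‖⁻¹ • x ∈ S := by
        refine ⟨PointedCone.smul_mem _ (inv_nonneg.2 hn.le) hx, ?_⟩
        simp [norm_smul, hn.ne']
      have h1 : f y0 ≤ f (‖x‖⁻¹ • x) := hmin hmem
      rw [map_smul, smul_eq_mul, ← div_eq_inv_mul, le_div_iff₀ hn] at h1
      exact h1
  · refine ⟨0, 1, one_pos, fun x hx => ?_⟩
    by_cases h0 : x = 0
    · simp [h0]
    · exfalso
      have hn : 0 < ‖x‖ := norm_pos_iff.2 h0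
      refine hne ⟨‖x‖⁻¹ • x, PointedCone.smul_mem _ (inv_nonneg.2 hn.le) hx, ?_⟩
      simp [norm_smul, hn.ne']

/-- A closed salient cone admits a strictly positive rational functional. -/
lemma exists_pos_rat {n : ℕ} (K : PointedCone ℝ (Fin n → ℝ))
    (hcl : IsClosed (K : Set (Fin n → ℝ)))
    (hsal : ∀ x, x ∈ K → -x ∈ K → x = 0) :
    ∃ (q : Fin n → ℚ) (c : ℝ), 0 < c ∧ ∀ x ∈ K, c * ‖x‖ ≤ ratVec q ⬝ᵥ x := by
  classical
  obtain ⟨f, c, hc, hf⟩ := exists_pos_functional K hcl hsal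
  set w : Fin n → ℝ := fun i => f (Pi.single i 1) with hw
  have hfw : ∀ x, f x = w ⬝ᵥ x := by
    intro x
    have hx : x = ∑ i, x i • (Pi.single i (1 : ℝ) : Fin n → ℝ) := by
      funext j
      simp [Finset.sum_apply, Pi.single_apply]
    conv_lhs => rw [hx]
    rw [map_sum, dotProduct]
    refine Finset.sum_congr rfl fun i _ => ?_
    rw [map_smul, smul_eq_mul, mul_comm]
  set δ : ℝ := c / (2 * ((n : ℝ) + 1)) with hδ
  have hδpos : 0 < δ := by positivity
  have hq : ∀ i, ∃ r : ℚ, |w i - (r : ℝ)| < δ := by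
    intro i
    obtain ⟨r, hr1, hr2⟩ := exists_rat_btwn (show w i - δ < w i + δ by linarith)
    exact ⟨r, by rw [abs_lt]; constructor <;> linarith⟩
  choose q hq using hq
  refine ⟨q, c / 2, by positivity, fun x hx => ?_⟩
  have h1 : |w ⬝ᵥ x - ratVec q ⬝ᵥ x| ≤ (n : ℝ) * δ * ‖x‖ := by
    rw [← sub_dotProduct, dotProduct]
    calc |∑ i, (w - ratVec q) i * x i| ≤ ∑ i, |(w - ratVec q) i * x i| :=
          Finset.abs_sum_le_sum_abs _ _
      _ ≤ ∑ i : Fin n, δ * ‖x‖ := by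
          refine Finset.sum_le_sum fun i _ => ?_
          rw [abs_mul]
          refine mul_le_mul (hq i).le ?_ (abs_nonneg _) hδpos.le
          exact norm_le_pi_norm x i
      _ = (n : ℝ) * δ * ‖x‖ := by
          rw [Finset.sum_const, Finset.card_univ, Fintype.card_fin, nsmul_eq_mul]; ring
  have h2 : (n : ℝ) * δ ≤ c / 2 := by
    rw [hδ]
    have hn : (0 : ℝ) < (n : ℝ) + 1 := by positivity
    rw [mul_div_assoc', div_le_div_iff₀ (by positivity) (by positivity)]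
    nlinarith
  have h3 : (n : ℝ) * δ * ‖x‖ ≤ c / 2 * ‖x‖ := mul_le_mul_of_nonneg_right h2 (norm_nonneg _)
  have h4 := hf x hx
  rw [hfw] at h4
  have h5 := (abs_le.1 (h1.trans h3)).2
  linarith

/-- A matrix preserving the cone is bounded by its value at an interior point. -/
lemma norm_act_le {n : ℕ} (K : PointedCone ℝ (Fin n → ℝ)) (q : Fin n → ℚ) {c ε : ℝ}
    (hc : 0 < c) (hε : 0 < ε) (hq : ∀ x ∈ K, c * ‖x‖ ≤ ratVec q ⬝ᵥ x)
    {x₀ : Fin n → ℝ} (hx₀ : Metric.closedBall x₀ ε ⊆ (K : Set (Fin n → ℝ)))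
    (g : Matrix (Fin n) (Fin n) ℤ) (hg : ∀ x ∈ K, act g x ∈ K) (v : Fin n → ℝ) :
    ‖act g v‖ ≤ (ratVec q ⬝ᵥ act g x₀) / (c * ε) * ‖v‖ := by
  by_cases hv : v = 0
  · simp [hv]
  have hn : 0 < ‖v‖ := norm_pos_iff.2 hv
  set w : Fin n → ℝ := (ε / ‖v‖) • v with hw
  have hwn : ‖w‖ = ε := by
    rw [hw, norm_smul, Real.norm_of_nonneg (by positivity)]
    field_simp
  have h1 : x₀ + w ∈ K := hx₀ (by simp [hwn])
  have h2 : x₀ - w ∈ K := hx₀ (by simp [hwn])
  have h3 := hq _ (hg _ h1)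
  have h4 := hq _ (hg _ h2)
  have h5 : act g w = (1 / 2 : ℝ) • (act g (x₀ + w) - act g (x₀ - w)) := by
    rw [map_add, map_sub]
    module
  have h6 : ‖act g w‖ ≤ (1 / 2) * (‖act g (x₀ + w)‖ + ‖act g (x₀ - w)‖) := by
    rw [h5, norm_smul]
    have : ‖(1 / 2 : ℝ)‖ = 1 / 2 := by norm_num
    rw [this]
    have := norm_sub_le (act g (x₀ + w)) (act g (x₀ - w))
    linarith
  have h7 : c * ‖act g w‖ ≤ ratVec q ⬝ᵥ act g x₀ := by
    have e : ratVec q ⬝ᵥ act g (x₀ + w) + ratVec q ⬝ᵥ act g (x₀ - w)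
        = 2 * (ratVec q ⬝ᵥ act g x₀) := by
      rw [map_add, map_sub, dotProduct_add, dotProduct_sub]; ring
    nlinarith [mul_le_mul_of_nonneg_left h6 hc.le]
  have h8 : ‖act g w‖ = ε / ‖v‖ * ‖act g v‖ := by
    rw [hw, map_smul, norm_smul, Real.norm_of_nonneg (by positivity)]
  rw [h8] at h7
  rw [div_mul_eq_mul_div, le_div_iff₀ (by positivity)]
  have h9 : c * (ε / ‖v‖ * ‖act g v‖) = ‖act g v‖ * (c * ε) / ‖v‖ := by ring
  rw [h9, div_le_iff₀ hn] at h7
  exact h7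

/-- Only finitely many integer matrices preserve the cone and have bounded value at an
interior point (uniformly in that point). -/
lemma finite_matrices {n : ℕ} (K : PointedCone ℝ (Fin n → ℝ)) (q : Fin n → ℚ) {c ε : ℝ}
    (hc : 0 < c) (hε : 0 < ε) (hq : ∀ x ∈ K, c * ‖x‖ ≤ ratVec q ⬝ᵥ x) (T : ℝ) :
    {g : Matrix (Fin n) (Fin n) ℤ | (∀ x ∈ K, act g x ∈ K) ∧
      ∃ x₀, Metric.closedBall x₀ ε ⊆ (K : Set (Fin n → ℝ)) ∧
        ratVec q ⬝ᵥ act g x₀ ≤ T}.Finite := by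
  classical
  obtain ⟨B, hB⟩ := exists_nat_ge (T / (c * ε))
  have hfin : (Set.Icc (fun _ _ => (-(B : ℤ))) (fun _ _ => (B : ℤ)) :
      Set (Fin n → Fin n → ℤ)).Finite := Set.finite_Icc _ _
  refine hfin.subset ?_
  rintro g ⟨hg, x₀, hx₀, hT⟩
  have hb : ∀ i j, |(g i j : ℝ)| ≤ B := by
    intro i j
    have h1 := norm_act_le K q hc hε hq hx₀ g hg (Pi.single j 1)
    have h2 : ‖(Pi.single j (1 : ℝ) : Fin n → ℝ)‖ = 1 := by
      rw [Pi.norm_single]; simp
    rw [h2, mul_one] at h1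
    have h3 : |(g i j : ℝ)| ≤ ‖act g (Pi.single j 1)‖ := by
      have h31 := norm_le_pi_norm (act g (Pi.single j 1)) i
      rw [act_single g i j] at h31
      exact h31
    have h4 : (ratVec q ⬝ᵥ act g x₀) / (c * ε) ≤ T / (c * ε) := by gcongr
    linarith
  constructor
  · intro i j
    have := (abs_le.1 (hb i j)).1
    show -(B : ℤ) ≤ g i j
    exact_mod_cast this
  · intro i j
    have := (abs_le.1 (hb i j)).2
    show g i j ≤ (B : ℤ)
    exact_mod_cast this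

end Pool.Agent.H93Cone
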