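import Mathlib

/-!
Definitions: rational and integral vectors, action of integer matrices.
-/

namespace Pool.Agent.H93Cone

/-- The real vector with the given rational coordinates. -/
def ratVec {n : ℕ} (q : Fin n → ℚ) : Fin n → ℝ := fun i => (q i : ℝ)

/-- The real vector with the given integer coordinates. -/
def intVec {n : ℕ} (d : Fin n → ℤ) : Fin n → ℝ := fun i => (d i : ℝ)

/-- Action of an integer matrix on real vectors. -/
def act {n : ℕ} (g : Matrix (Fin n) (Fin n) ℤ) : (Fin n → ℝ) →ₗ[ℝ] (Fin n → ℝ) :=
  Matrix.mulVecLin (g.map (Int.cast : ℤ → ℝ))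

end Pool.Agent.H93Cone
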