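import Pool.Agent.H93Cone.Simplex

/-!
The Dirichlet domain of a group of integer matrices acting on a simplicial cone with
dominating elements: it is rational polyhedral and an exact fundamental domain.
-/

namespace Pool.Agent.H93Cone

open Finset Module Filter Topology

variable {n : ℕ}

/-- matrices of a subgroup -/
def mats (G : Subgroup (GL (Fin n) ℤ)) : Set (Matrix (Fin n) (Fin n) ℤ) :=
  {g | ∃ γ ∈ G, (γ : Matrix (Fin n) (Fin n) ℤ) = g}

/-- rational left action -/
def lq (g : Matrix (Fin n) (Fin n) ℤ) (p : Fin n → ℚ) : Fin n → ℚ :=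
  Matrix.vecMul p (g.map (Int.cast : ℤ → ℚ))

lemma ratVec_lq (g : Matrix (Fin n) (Fin n) ℤ) (p : Fin n → ℚ) :
    ratVec (lq g p) = lr g (ratVec p) := by
  funext j
  rw [lr_apply]
  simp [ratVec, lq, Matrix.vecMul, dotProduct]

lemma dot_lq (g : Matrix (Fin n) (Fin n) ℤ) (p : Fin n → ℚ) (x : Fin n → ℝ) :
    ratVec (lq g p) ⬝ᵥ x = ratVec p ⬝ᵥ act g x := by
  rw [ratVec_lq, dot_act]

lemma ratVec_injective : Function.Injective (ratVec (n := n)) := by
  intro p q h
  funext i
  have h1 : ((p i : ℚ) : ℝ) = ((q i : ℚ) : ℝ) := congrFun h i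
  exact_mod_cast h1

lemma act_val_inv (γ : GL (Fin n) ℤ) (x : Fin n → ℝ) :
    act (γ⁻¹ : GL (Fin n) ℤ).val (act γ.val x) = x := by
  rw [← act_mul_apply]
  have : (γ⁻¹ : GL (Fin n) ℤ).val * γ.val = 1 := by
    rw [← Units.val_mul, inv_mul_cancel, Units.val_one]
  rw [this, act_one]; rfl

lemma act_inv_val (γ : GL (Fin n) ℤ) (x : Fin n → ℝ) :
    act γ.val (act (γ⁻¹ : GL (Fin n) ℤ).val x) = x := by
  have := act_val_inv (γ⁻¹) x
  rwa [inv_inv] at this

lemma act_injective (γ : GL (Fin n) ℤ) : Function.Injective (act γ.val) := by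
  intro x y h
  rw [← act_val_inv γ x, h, act_val_inv]

/-- functionals agreeing on an open set agree -/
lemma eq_of_open {p q : Fin n → ℝ} {U : Set (Fin n → ℝ)} (hU : IsOpen U) (hne : U.Nonempty)
    (h : ∀ x ∈ U, p ⬝ᵥ x = q ⬝ᵥ x) : p = q := by
  classical
  obtain ⟨x, hx⟩ := hne
  funext i
  have h1 : Tendsto (fun t : ℝ => x + t • (Pi.single i (1 : ℝ) : Fin n → ℝ)) (𝓝[>] 0)
      (𝓝 (x + (0 : ℝ) • (Pi.single i (1 : ℝ) : Fin n → ℝ))) := by
    refine Tendsto.mono_left ?_ nhdsWithin_le_nhds
    exact (continuous_const.add (continuous_id.smul continuous_const)).tendsto 0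
  rw [zero_smul, add_zero] at h1
  obtain ⟨t, ht, htpos⟩ := ((h1.eventually (hU.mem_nhds hx)).and self_mem_nhdsWithin).exists
  have h2 := h _ ht
  rw [dotProduct_add, dotProduct_add, h x hx, dotProduct_smul, dotProduct_smul,
    dotProduct_single, dotProduct_single, smul_eq_mul, smul_eq_mul, mul_one, mul_one] at h2
  have htp : (0 : ℝ) < t := htpos
  have h3 : t * p i = t * q i := by linarith
  exact mul_left_cancel₀ htp.ne' h3

/-- A finite set of nontrivial integer matrices does not fix a suitable rational functional. -/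
lemma exists_free_functional (H : Finset (Matrix (Fin n) (Fin n) ℤ)) (hH : ∀ g ∈ H, g ≠ 1) :
    ∃ p : Fin n → ℚ, ∀ g ∈ H, lq g p ≠ p := by
  classical
  let S : Matrix (Fin n) (Fin n) ℤ → Submodule ℚ (Fin n → ℚ) := fun g =>
    { carrier := {p | lq g p = p}
      zero_mem' := by simp [lq]
      add_mem' := by
        intro a b ha hb
        show lq g (a + b) = a + b
        have : lq g (a + b) = lq g a + lq g b := by simp [lq, Matrix.add_vecMul]
        rw [this, ha, hb]
      smul_mem' := by
        intro c a ha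
        show lq g (c • a) = c • a
        have : lq g (c • a) = c • lq g a := by simp [lq, Matrix.smul_vecMul]
        rw [this, ha] }
  have hS : ∀ g ∈ H, S g ≠ ⊤ := by
    intro g hg htop
    apply hH g hg
    ext i j
    have h1 : (Pi.single i (1 : ℚ) : Fin n → ℚ) ∈ S g := htop ▸ Submodule.mem_top
    have h2 : lq g (Pi.single i (1 : ℚ)) = Pi.single i (1 : ℚ) := h1
    have h3 := congrFun h2 j
    rw [lq, Matrix.single_one_vecMul] at h3
    simp only [Matrix.row_apply, Matrix.map_apply] at h3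
    rw [Matrix.one_apply]
    rw [Pi.single_apply] at h3
    split_ifs at h3 ⊢ with ha hb hb
    · exact_mod_cast h3
    · exact absurd ha.symm hb
    · exact absurd hb.symm ha
    · exact_mod_cast h3
  have hcover := Subspace.biUnion_ne_univ_of_top_notMem (k := ℚ) (E := Fin n → ℚ)
    (s := H.image S) (by
      intro hmem
      obtain ⟨g, hg, hgt⟩ := Finset.mem_image.1 hmem
      exact hS g hg hgt)
  obtain ⟨p, hp⟩ := (Set.ne_univ_iff_exists_notMem _).1 hcover
  refine ⟨p, fun g hg hfix => hp ?_⟩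
  simp only [Set.mem_iUnion]
  exact ⟨S g, Finset.mem_image_of_mem S hg, hfix⟩

end Pool.Agent.H93Cone
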