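import Pool.Agent.H93Cone.Domain

/-!
The Dirichlet domain theorem.
-/

namespace Pool.Agent.H93Cone

open Finset Module Filter Topology

variable {n : ℕ}

theorem dirichlet (K : PointedCone ℝ (Fin n → ℝ))
    (hcl : IsClosed (K : Set (Fin n → ℝ))) (hsal : ∀ x, x ∈ K → -x ∈ K → x = 0)
    (hint : (interior (K : Set (Fin n → ℝ))).Nonempty)
    (G : Subgroup (GL (Fin n) ℤ)) (hG : ∀ γ ∈ G, ∀ x ∈ K, act γ.val x ∈ K)
    (ξ : Fin n → (Fin n → ℝ)) (hD : Dominated (mats G) ξ)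
    (hK : ∀ x, x ∈ K ↔ ∀ i, 0 ≤ ξ i ⬝ᵥ x) :
    ∃ S : Finset (Fin n → ℚ),
      (∀ y ∈ PointedCone.hull ℝ (ratVec '' (S : Set (Fin n → ℚ))),
        y = 0 ∨ y ∈ interior (K : Set (Fin n → ℝ))) ∧
      (∀ x ∈ interior (K : Set (Fin n → ℝ)), ∃ γ ∈ G,
        ∃ y ∈ PointedCone.hull ℝ (ratVec '' (S : Set (Fin n → ℚ))), act γ.val y = x) ∧
      (∀ γ ∈ G, γ ≠ 1 → Disjoint
        (interior (PointedCone.hull ℝ (ratVec '' (S : Set (Fin n → ℚ))) : Set (Fin n → ℝ)))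
        (interior (act γ.val ''
          (PointedCone.hull ℝ (ratVec '' (S : Set (Fin n → ℚ))) : Set (Fin n → ℝ))))) := by
  classical
  have hintK := mem_interior_iff hD K hK
  obtain ⟨q, c, hc, hq⟩ := exists_pos_rat K hcl hsal
  have hqnn : ∀ x ∈ K, 0 ≤ ratVec q ⬝ᵥ x := fun x hx =>
    (mul_nonneg hc.le (norm_nonneg x)).trans (hq x hx)
  have hqpos : ∀ x ∈ K, x ≠ 0 → 0 < ratVec q ⬝ᵥ x := fun x hx h0 =>
    lt_of_lt_of_le (mul_pos hc (norm_pos_iff.2 h0)) (hq x hx)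
  have hval : Function.Injective (fun γ : GL (Fin n) ℤ => γ.val) := Units.val_injective
  -- finiteness in the group
  have hfinG : ∀ (ε : ℝ), 0 < ε → ∀ T : ℝ,
      {γ : GL (Fin n) ℤ | γ ∈ G ∧ ∃ x₀, Metric.closedBall x₀ ε ⊆ (K : Set (Fin n → ℝ)) ∧
        ratVec q ⬝ᵥ act γ.val x₀ ≤ T}.Finite := by
    intro ε hε T
    refine Set.Finite.of_finite_image (f := fun γ : GL (Fin n) ℤ => γ.val)
      ((finite_matrices K q hc hε hq T).subset ?_) hval.injOn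
    rintro _ ⟨γ, ⟨hγ, h⟩, rfl⟩
    exact ⟨hG γ hγ, h⟩
  -- interior is preserved
  have hintG : ∀ γ ∈ G, ∀ x ∈ interior (K : Set (Fin n → ℝ)),
      act γ.val x ∈ interior (K : Set (Fin n → ℝ)) := by
    intro γ hγ x hx
    have hopen : IsOpen ((fun y => act (γ⁻¹ : GL (Fin n) ℤ).val y) ⁻¹'
        (interior (K : Set (Fin n → ℝ)))) :=
      isOpen_interior.preimage (act_continuous _)
    refine mem_interior.2 ⟨_, ?_, hopen, ?_⟩
    · intro y hy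
      have h1 : act (γ⁻¹ : GL (Fin n) ℤ).val y ∈ (K : Set (Fin n → ℝ)) := interior_subset hy
      have h2 : act γ.val (act (γ⁻¹ : GL (Fin n) ℤ).val y) ∈ K := hG γ hγ _ h1
      rw [act_inv_val] at h2
      exact h2
    · show act (γ⁻¹ : GL (Fin n) ℤ).val (act γ.val x) ∈ interior (K : Set (Fin n → ℝ))
      rw [act_val_inv]; exact hx
  obtain ⟨x₀, hx₀⟩ := hint
  obtain ⟨ε₀, hε₀, hball⟩ : ∃ ε > 0, Metric.closedBall x₀ ε ⊆ (K : Set (Fin n → ℝ)) := by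
    obtain ⟨ε, hε, h⟩ := Metric.nhds_basis_closedBall.mem_iff.1 (isOpen_interior.mem_nhds hx₀)
    exact ⟨ε, hε, h.trans interior_subset⟩
  -- stabiliser of the functional
  have hHfin : {γ : GL (Fin n) ℤ | γ ∈ G ∧ lq γ.val q = q}.Finite := by
    refine (hfinG ε₀ hε₀ (ratVec q ⬝ᵥ x₀)).subset ?_
    rintro γ ⟨hγ, hst⟩
    exact ⟨hγ, x₀, hball, by rw [← dot_lq, hst]⟩
  set H : Finset (GL (Fin n) ℤ) := hHfin.toFinset with hH
  have hmemH : ∀ γ, γ ∈ H ↔ γ ∈ G ∧ lq γ.val q = q := fun γ => by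
    rw [hH, Set.Finite.mem_toFinset]; rfl
  obtain ⟨p, hp⟩ := exists_free_functional ((H.erase 1).image (fun γ : GL (Fin n) ℤ => γ.val)) (by
    intro g hg h1
    obtain ⟨γ, hγ, rfl⟩ := Finset.mem_image.1 hg
    exact (Finset.mem_erase.1 hγ).1 (hval h1))
  -- the full domain
  let Dom : Set (Fin n → ℝ) := {x | x ∈ K ∧ (∀ γ ∈ G, ratVec q ⬝ᵥ x ≤ ratVec q ⬝ᵥ act γ.val x) ∧
    ∀ γ ∈ H, ratVec p ⬝ᵥ x ≤ ratVec p ⬝ᵥ act γ.val x}
  -- covering
  have hcover : ∀ x ∈ interior (K : Set (Fin n → ℝ)), ∃ γ ∈ G, ∃ y ∈ Dom, act γ.val y = x := by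
    intro x hx
    obtain ⟨ε, hε, hxb⟩ : ∃ ε > 0, Metric.closedBall x ε ⊆ (K : Set (Fin n → ℝ)) := by
      obtain ⟨ε, hε, h⟩ := Metric.nhds_basis_closedBall.mem_iff.1 (isOpen_interior.mem_nhds hx)
      exact ⟨ε, hε, h.trans interior_subset⟩
    have hfin : {γ : GL (Fin n) ℤ | γ ∈ G ∧ ratVec q ⬝ᵥ act γ.val x ≤ ratVec q ⬝ᵥ x}.Finite :=
      (hfinG ε hε (ratVec q ⬝ᵥ x)).subset fun γ hγ => ⟨hγ.1, x, hxb, hγ.2⟩
    have hne1 : {γ : GL (Fin n) ℤ | γ ∈ G ∧ ratVec q ⬝ᵥ act γ.val x ≤ ratVec q ⬝ᵥ x}.Nonempty :=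
      ⟨1, G.one_mem, by simp⟩
    obtain ⟨γ₀, hγ₀, hmin⟩ := Set.exists_min_image _ (fun γ : GL (Fin n) ℤ =>
      ratVec q ⬝ᵥ act γ.val x) hfin hne1
    have hmin' : ∀ γ ∈ G, ratVec q ⬝ᵥ act γ₀.val x ≤ ratVec q ⬝ᵥ act γ.val x := by
      intro γ hγ
      by_cases h : ratVec q ⬝ᵥ act γ.val x ≤ ratVec q ⬝ᵥ x
      · exact hmin γ ⟨hγ, h⟩
      · push Not at h
        exact hγ₀.2.trans h.le
    have hHne : H.Nonempty := ⟨1, (hmemH 1).2 ⟨G.one_mem, by simp [lq]⟩⟩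
    obtain ⟨η, hη, hηmin⟩ := H.exists_min_image (fun η : GL (Fin n) ℤ =>
      ratVec p ⬝ᵥ act η.val (act γ₀.val x)) hHne
    obtain ⟨hηG, hηst⟩ := (hmemH η).1 hη
    have hy : act (η * γ₀).val x = act η.val (act γ₀.val x) := by
      rw [Units.val_mul, act_mul_apply]
    have hqy : ratVec q ⬝ᵥ act (η * γ₀).val x = ratVec q ⬝ᵥ act γ₀.val x := by
      rw [hy, ← dot_lq, hηst]
    refine ⟨(η * γ₀)⁻¹, G.inv_mem (G.mul_mem hηG hγ₀.1), act (η * γ₀).val x, ⟨?_, ?_, ?_⟩,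
      act_val_inv _ _⟩
    · exact hG _ (G.mul_mem hηG hγ₀.1) _ (interior_subset hx)
    · intro γ hγ
      rw [hqy, ← act_mul_apply, ← Units.val_mul]
      exact hmin' _ (G.mul_mem hγ (G.mul_mem hηG hγ₀.1))
    · intro γ hγ
      obtain ⟨hγG, hγst⟩ := (hmemH γ).1 hγ
      have h1 : γ * η ∈ H := by
        refine (hmemH _).2 ⟨G.mul_mem hγG hηG, ?_⟩
        apply ratVec_injective
        rw [ratVec_lq, Units.val_mul, lr_mul, ← ratVec_lq, hγst, ← ratVec_lq, hηst]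
      have h2 := hηmin _ h1
      rw [Units.val_mul, act_mul_apply] at h2
      rw [hy]
      exact h2
  -- boundary points violate some inequality
  have hbd : ∀ x ∈ K, x ≠ 0 → x ∉ interior (K : Set (Fin n → ℝ)) →
      ∃ γ ∈ G, ratVec q ⬝ᵥ act γ.val x < ratVec q ⬝ᵥ x := by
    intro x hx h0 hni
    rw [hintK] at hni
    push Not at hni
    obtain ⟨i, hi⟩ := hni
    have h1 : ξ i ⬝ᵥ x = 0 := le_antisymm hi ((hK x).1 hx i)
    obtain ⟨g, ⟨γ, hγ, rfl⟩, hlim⟩ := tendsto_zero hD i x h1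
    have h2 : Tendsto (fun k : ℕ => ratVec q ⬝ᵥ act (γ.val ^ k) x) atTop (𝓝 (ratVec q ⬝ᵥ 0)) :=
      ((continuous_dot (ratVec q)).tendsto 0).comp hlim
    rw [dotProduct_zero] at h2
    obtain ⟨k, hk⟩ := (h2.eventually (gt_mem_nhds (hqpos x hx h0))).exists
    exact ⟨γ ^ k, G.pow_mem hγ k, by rw [Units.val_pow_eq_pow_val]; exact hk⟩
  -- compact slice
  set B : Set (Fin n → ℝ) := (K : Set (Fin n → ℝ)) ∩ {x | ratVec q ⬝ᵥ x = 1} with hB
  have hBc : IsCompact B := by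
    refine (isCompact_closedBall (0 : Fin n → ℝ) (1 / c)).of_isClosed_subset
      (hcl.inter (isClosed_eq (continuous_dot _) continuous_const)) ?_
    rintro x ⟨hxK, hx1⟩
    rw [mem_closedBall_zero_iff, le_div_iff₀ hc, mul_comm]
    have := hq x hxK
    rwa [show ratVec q ⬝ᵥ x = 1 from hx1] at this
  set Bd : Set (Fin n → ℝ) := B ∩ (interior (K : Set (Fin n → ℝ)))ᶜ with hbB
  have hbBc : IsCompact Bd := hBc.inter_right isOpen_interior.isClosed_compl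
  have hne0 : ∀ x ∈ B, x ≠ 0 := by
    rintro x ⟨_, hx1⟩ h0
    have h1 : ratVec q ⬝ᵥ x = 1 := hx1
    rw [h0, dotProduct_zero] at h1
    exact zero_ne_one h1
  obtain ⟨F₀, hF₀⟩ := hbBc.elim_finite_subcover
    (fun γ : G => {x | ratVec q ⬝ᵥ act γ.1.val x < ratVec q ⬝ᵥ x})
    (fun γ => isOpen_lt ((continuous_dot _).comp (act_continuous _)) (continuous_dot _))
    (by
      rintro x ⟨hxB, hxi⟩
      obtain ⟨γ, hγ, h⟩ := hbd x hxB.1 (hne0 x hxB) hxi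
      exact Set.mem_iUnion.2 ⟨⟨γ, hγ⟩, h⟩)
  -- the cone cut out by `F₀`
  let P₀ : Set (Fin n → ℝ) := {x | 0 ≤ ratVec q ⬝ᵥ x ∧
    ∀ γ ∈ F₀, ratVec q ⬝ᵥ x ≤ ratVec q ⬝ᵥ act γ.1.val x}
  have hP₀int : ∀ x ∈ P₀, x ∈ K → x ≠ 0 → x ∈ interior (K : Set (Fin n → ℝ)) := by
    rintro x ⟨_, hx2⟩ hxK h0
    by_contra hni
    have hqx := hqpos x hxK h0
    set y : Fin n → ℝ := (ratVec q ⬝ᵥ x)⁻¹ • x with hy
    have hyB : y ∈ Bd := by
      refine ⟨⟨PointedCone.smul_mem _ (inv_nonneg.2 hqx.le) hxK, ?_⟩, ?_⟩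
      · show ratVec q ⬝ᵥ y = 1
        rw [hy, dotProduct_smul, smul_eq_mul, inv_mul_cancel₀ hqx.ne']
      · intro hyi
        apply hni
        rw [hintK] at hyi ⊢
        intro i
        have h1 := hyi i
        rw [hy, dotProduct_smul, smul_eq_mul] at h1
        exact (pos_iff_pos_of_mul_pos h1).1 (inv_pos.2 hqx)
    obtain ⟨γ, hγ⟩ := Set.mem_iUnion.1 (hF₀ hyB)
    obtain ⟨hγF, hlt⟩ := Set.mem_iUnion.1 hγ
    have h2 : ratVec q ⬝ᵥ act γ.1.val y < ratVec q ⬝ᵥ y := hlt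
    rw [hy, map_smul, dotProduct_smul, dotProduct_smul, smul_eq_mul, smul_eq_mul] at h2
    have h3 := lt_of_mul_lt_mul_left h2 (inv_nonneg.2 hqx.le)
    exact absurd (hx2 γ hγF) (not_le.2 h3)
  obtain ⟨γ₁, hγ₁, x₁, hx₁, hx₁eq⟩ := hcover x₀ hx₀
  have hx₁int : x₁ ∈ interior (K : Set (Fin n → ℝ)) := by
    have : x₁ = act (γ₁⁻¹ : GL (Fin n) ℤ).val x₀ := by rw [← hx₁eq, act_val_inv]
    rw [this]
    exact hintG _ (G.inv_mem hγ₁) _ hx₀
  by_cases hn0 : n = 0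
  · -- zero-dimensional space
    subst hn0
    refine ⟨∅, fun y _ => Or.inl (Subsingleton.elim _ _), fun x _ => ⟨1, G.one_mem, 0,
      Submodule.zero_mem _, Subsingleton.elim _ _⟩, fun γ _ hγ1 => ?_⟩
    exact absurd (Units.ext (Subsingleton.elim _ _)) hγ1
  have hnpos : 0 < n := Nat.pos_of_ne_zero hn0
  have hx₁0 : x₁ ≠ 0 := by
    intro h0
    have := (hintK x₁).1 hx₁int ⟨0, hnpos⟩
    rw [h0, dotProduct_zero] at this
    exact lt_irrefl _ this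
  have hqx₁ : 0 < ratVec q ⬝ᵥ x₁ := hqpos x₁ hx₁.1 hx₁0
  have hP₀K : ∀ x ∈ P₀, x ∈ K := by
    rintro x ⟨hx1, hx2⟩
    by_contra hxK
    -- first exit time
    have hbad : (Finset.univ.filter (fun i : Fin n => ξ i ⬝ᵥ x < 0)).Nonempty := by
      rw [hK] at hxK
      push Not at hxK
      obtain ⟨i, hi⟩ := hxK
      exact ⟨i, Finset.mem_filter.2 ⟨Finset.mem_univ _, hi⟩⟩
    have ha : ∀ i, 0 < ξ i ⬝ᵥ x₁ := (hintK x₁).1 hx₁int
    obtain ⟨i, hi, hmin⟩ := Finset.exists_min_image _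
      (fun i : Fin n => (ξ i ⬝ᵥ x₁) / (ξ i ⬝ᵥ x₁ - ξ i ⬝ᵥ x)) hbad
    have hi' : ξ i ⬝ᵥ x < 0 := (Finset.mem_filter.1 hi).2
    set t : ℝ := (ξ i ⬝ᵥ x₁) / (ξ i ⬝ᵥ x₁ - ξ i ⬝ᵥ x) with ht
    have hden : 0 < ξ i ⬝ᵥ x₁ - ξ i ⬝ᵥ x := by linarith [ha i]
    have ht0 : 0 < t := div_pos (ha i) hden
    have ht1 : t < 1 := by rw [ht, div_lt_one hden]; linarith
    set z : Fin n → ℝ := (1 - t) • x₁ + t • x with hz
    have hzdot : ∀ w : Fin n → ℝ, w ⬝ᵥ z = (1 - t) * (w ⬝ᵥ x₁) + t * (w ⬝ᵥ x) := by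
      intro w
      rw [hz, dotProduct_add, dotProduct_smul, dotProduct_smul, smul_eq_mul, smul_eq_mul]
    have hzi : ξ i ⬝ᵥ z = 0 := by
      rw [hzdot]
      have : t * (ξ i ⬝ᵥ x₁ - ξ i ⬝ᵥ x) = ξ i ⬝ᵥ x₁ := by rw [ht]; field_simp
      linarith
    have hzK : z ∈ K := by
      rw [hK]
      intro j
      rw [hzdot]
      by_cases hj : ξ j ⬝ᵥ x < 0
      · have h1 := hmin j (Finset.mem_filter.2 ⟨Finset.mem_univ _, hj⟩)
        have hdj : 0 < ξ j ⬝ᵥ x₁ - ξ j ⬝ᵥ x := by linarith [ha j]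
        have h1' : t ≤ (ξ j ⬝ᵥ x₁) / (ξ j ⬝ᵥ x₁ - ξ j ⬝ᵥ x) := h1
        rw [le_div_iff₀ hdj] at h1'
        linarith
      · push Not at hj
        have := ha j
        have h2 : 0 ≤ (1 - t) * (ξ j ⬝ᵥ x₁) := mul_nonneg (by linarith) this.le
        have h3 : 0 ≤ t * (ξ j ⬝ᵥ x) := mul_nonneg ht0.le hj
        linarith
    have hqz : 0 < ratVec q ⬝ᵥ z := by
      rw [hzdot]
      have h2 : 0 < (1 - t) * (ratVec q ⬝ᵥ x₁) := mul_pos (by linarith) hqx₁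
      have h3 : 0 ≤ t * (ratVec q ⬝ᵥ x) := mul_nonneg ht0.le hx1
      linarith
    have hzP : z ∈ P₀ := by
      refine ⟨hqz.le, fun γ hγ => ?_⟩
      have h2 : act γ.1.val z = (1 - t) • act γ.1.val x₁ + t • act γ.1.val x := by
        rw [hz, map_add, map_smul, map_smul]
      rw [hzdot, h2, dotProduct_add, dotProduct_smul, dotProduct_smul, smul_eq_mul, smul_eq_mul]
      have h3 := hx₁.2.1 γ.1 γ.2
      have h4 := hx2 γ hγ
      have h5 := mul_le_mul_of_nonneg_left h3 (by linarith : (0 : ℝ) ≤ 1 - t)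
      have h6 := mul_le_mul_of_nonneg_left h4 ht0.le
      linarith
    have hz0 : z ≠ 0 := by
      intro h0; rw [h0, dotProduct_zero] at hqz; exact lt_irrefl _ hqz
    have hzint := hP₀int z hzP hzK hz0
    have := (hintK z).1 hzint i
    rw [hzi] at this
    exact lt_irrefl _ this
  -- compactness of the slice of `P₀`
  have hPclosed : IsClosed P₀ := by
    have e : P₀ = {x | 0 ≤ ratVec q ⬝ᵥ x} ∩ ⋂ γ ∈ F₀,
        {x | ratVec q ⬝ᵥ x ≤ ratVec q ⬝ᵥ act γ.1.val x} := by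
      ext x
      simp only [P₀, Set.mem_ofPred_eq, Set.mem_inter_iff, Set.mem_iInter]
    rw [e]
    refine (isClosed_le continuous_const (continuous_dot _)).inter
      (isClosed_biInter fun γ _ => isClosed_le (continuous_dot _)
        ((continuous_dot _).comp (act_continuous _)))
  have hCc : IsCompact (B ∩ P₀) := hBc.inter_right hPclosed
  have hCsub : B ∩ P₀ ⊆ interior (K : Set (Fin n → ℝ)) := fun x hx =>
    hP₀int x hx.2 hx.1.1 (hne0 x hx.1)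
  obtain ⟨δ, hδ, hthick⟩ := hCc.exists_cthickening_subset_open isOpen_interior hCsub
  have hF₁ := hfinG δ hδ 1
  set F₁ := hF₁.toFinset with hF₁def
  have hfar : ∀ x ∈ B ∩ P₀, ∀ γ ∈ G, γ ∉ F₁ → ratVec q ⬝ᵥ x ≤ ratVec q ⬝ᵥ act γ.val x := by
    intro x hx γ hγ hγF
    by_contra hcon
    push Not at hcon
    apply hγF
    rw [hF₁def, Set.Finite.mem_toFinset]
    refine ⟨hγ, x, ?_, ?_⟩
    · exact (Metric.closedBall_subset_cthickening hx δ).trans (hthick.trans interior_subset)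
    · have h1 : ratVec q ⬝ᵥ x = 1 := hx.1.2
      rw [h1] at hcon
      exact hcon.le
  -- the list of inequalities
  set L : List (Fin n → ℚ) := q :: ((F₀.toList.map (fun γ => lq γ.1.val q - q)) ++
    (F₁.toList.map (fun γ => lq γ.val q - q)) ++ (H.toList.map (fun γ => lq γ.val p - p))) with hL
  obtain ⟨S, hS⟩ := minkowski_weyl L
  have hSDom : ∀ x, x ∈ PointedCone.hull ℝ (ratVec '' (S : Set (Fin n → ℚ))) ↔ x ∈ Dom := by
    intro x
    rw [hS x]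
    have hrw : ∀ (γ : GL (Fin n) ℤ) (w : Fin n → ℚ),
        0 ≤ ratVec (lq γ.val w - w) ⬝ᵥ x ↔ ratVec w ⬝ᵥ x ≤ ratVec w ⬝ᵥ act γ.val x := by
      intro γ w
      rw [ratVec_sub, sub_dotProduct, dot_lq, sub_nonneg]
    constructor
    · intro h
      have h1 : 0 ≤ ratVec q ⬝ᵥ x := h q (by simp [hL])
      have h2 : ∀ γ ∈ F₀, ratVec q ⬝ᵥ x ≤ ratVec q ⬝ᵥ act γ.1.val x := fun γ hγ =>
        (hrw γ.1 q).1 (h _ (by
          rw [hL, List.mem_cons, List.mem_append, List.mem_append]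
          exact Or.inr (Or.inl (Or.inl (List.mem_map.2 ⟨γ, by simpa using hγ, rfl⟩)))))
      have h3 : ∀ γ ∈ F₁, ratVec q ⬝ᵥ x ≤ ratVec q ⬝ᵥ act γ.val x := fun γ hγ =>
        (hrw γ q).1 (h _ (by
          rw [hL, List.mem_cons, List.mem_append, List.mem_append]
          exact Or.inr (Or.inl (Or.inr (List.mem_map.2 ⟨γ, by simpa using hγ, rfl⟩)))))
      have h4 : ∀ γ ∈ H, ratVec p ⬝ᵥ x ≤ ratVec p ⬝ᵥ act γ.val x := fun γ hγ =>
        (hrw γ p).1 (h _ (by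
          rw [hL, List.mem_cons, List.mem_append, List.mem_append]
          exact Or.inr (Or.inr (List.mem_map.2 ⟨γ, by simpa using hγ, rfl⟩))))
      have hxP : x ∈ P₀ := ⟨h1, h2⟩
      have hxK := hP₀K x hxP
      refine ⟨hxK, fun γ hγ => ?_, h4⟩
      by_cases h0 : x = 0
      · rw [h0, map_zero]
      · by_cases hγF : γ ∈ F₁
        · exact h3 γ hγF
        · have hqx := hqpos x hxK h0
          set y : Fin n → ℝ := (ratVec q ⬝ᵥ x)⁻¹ • x with hy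
          have hyB : y ∈ B ∩ P₀ := by
            refine ⟨⟨PointedCone.smul_mem _ (inv_nonneg.2 hqx.le) hxK, ?_⟩, ?_, ?_⟩
            · show ratVec q ⬝ᵥ y = 1
              rw [hy, dotProduct_smul, smul_eq_mul, inv_mul_cancel₀ hqx.ne']
            · rw [hy, dotProduct_smul, smul_eq_mul]
              exact mul_nonneg (inv_nonneg.2 hqx.le) h1
            · intro γ' hγ'
              rw [hy, map_smul, dotProduct_smul, dotProduct_smul, smul_eq_mul, smul_eq_mul]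
              exact mul_le_mul_of_nonneg_left (h2 γ' hγ') (inv_nonneg.2 hqx.le)
          have h5 := hfar y hyB γ hγ hγF
          rw [hy, map_smul, dotProduct_smul, dotProduct_smul, smul_eq_mul, smul_eq_mul] at h5
          exact le_of_mul_le_mul_left h5 (inv_pos.2 hqx)
    · rintro ⟨hxK, h1, h2⟩ w hw
      rw [hL, List.mem_cons, List.mem_append, List.mem_append] at hw
      rcases hw with rfl | (hw | hw) | hw
      · exact hqnn x hxK
      · obtain ⟨γ, _, rfl⟩ := List.mem_map.1 hw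
        exact (hrw γ.1 q).2 (h1 γ.1 γ.2)
      · obtain ⟨γ, hγ, rfl⟩ := List.mem_map.1 hw
        have hγ' : γ ∈ F₁ := by simpa using hγ
        rw [hF₁def, Set.Finite.mem_toFinset] at hγ'
        exact (hrw γ q).2 (h1 γ hγ'.1)
      · obtain ⟨γ, hγ, rfl⟩ := List.mem_map.1 hw
        exact (hrw γ p).2 (h2 γ (by simpa using hγ))
  refine ⟨S, fun y hy => ?_, fun x hx => ?_, fun γ hγ hγ1 => ?_⟩
  · by_cases h0 : y = 0
    · exact Or.inl h0
    · right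
      have hyD := (hSDom y).1 hy
      by_contra hni
      obtain ⟨γ, hγ, hlt⟩ := hbd y hyD.1 h0 hni
      exact absurd (hyD.2.1 γ hγ) (not_le.2 hlt)
  · obtain ⟨γ, hγ, y, hy, hyx⟩ := hcover x hx
    exact ⟨γ, hγ, y, (hSDom y).2 hy, hyx⟩
  · rw [Set.disjoint_left]
    intro x hx1 hx2
    set Pi' : Set (Fin n → ℝ) :=
      (PointedCone.hull ℝ (ratVec '' (S : Set (Fin n → ℚ))) : Set (Fin n → ℝ)) with hPi
    have hopen : IsOpen (interior Pi' ∩ interior (act γ.val '' Pi')) :=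
      isOpen_interior.inter isOpen_interior
    have hinvG : γ⁻¹ ∈ G := G.inv_mem hγ
    have hboth : ∀ y ∈ interior Pi' ∩ interior (act γ.val '' Pi'),
        y ∈ Dom ∧ act (γ⁻¹ : GL (Fin n) ℤ).val y ∈ Dom := by
      rintro y ⟨hy1, hy2⟩
      refine ⟨(hSDom y).1 (interior_subset hy1), ?_⟩
      obtain ⟨w, hw, rfl⟩ := interior_subset hy2
      rw [act_val_inv]
      exact (hSDom w).1 hw
    have hqeq : ratVec (lq (γ⁻¹ : GL (Fin n) ℤ).val q) = ratVec q := by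
      refine eq_of_open hopen ⟨x, hx1, hx2⟩ fun y hy => ?_
      obtain ⟨h1, h2⟩ := hboth y hy
      rw [dot_lq]
      refine le_antisymm ?_ (h1.2.1 _ hinvG)
      have h3 := h2.2.1 γ hγ
      rwa [act_inv_val] at h3
    have hqeq' : lq (γ⁻¹ : GL (Fin n) ℤ).val q = q := ratVec_injective hqeq
    have hγinvH : γ⁻¹ ∈ H := (hmemH _).2 ⟨hinvG, hqeq'⟩
    have hγH : γ ∈ H := by
      refine (hmemH _).2 ⟨hγ, ?_⟩
      apply ratVec_injective
      rw [ratVec_lq]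
      conv_lhs => rw [← hqeq]
      rw [ratVec_lq, ← lr_mul, ← Units.val_mul, inv_mul_cancel, Units.val_one]
      rw [lr_apply]
      simp
    have hpeq : ratVec (lq (γ⁻¹ : GL (Fin n) ℤ).val p) = ratVec p := by
      refine eq_of_open hopen ⟨x, hx1, hx2⟩ fun y hy => ?_
      obtain ⟨h1, h2⟩ := hboth y hy
      rw [dot_lq]
      refine le_antisymm ?_ (h1.2.2 _ hγinvH)
      have h3 := h2.2.2 γ hγH
      rwa [act_inv_val] at h3
    have hpeq' := ratVec_injective hpeq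
    have hne : γ⁻¹ ≠ 1 := fun h => hγ1 (inv_eq_one.1 h)
    exact hp _ (Finset.mem_image.2 ⟨γ⁻¹, Finset.mem_erase.2 ⟨hne, hγinvH⟩, rfl⟩) hpeq'

end Pool.Agent.H93Cone
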