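import Pool.Agent.H93Cone.Defs

/-!
Rational Minkowski-Weyl theorem: a cone cut out in real space by finitely many linear
inequalities with rational coefficients is generated by finitely many rational vectors.
-/

namespace Pool.Agent.H93Cone

open Finset

lemma ratVec_add {n : ℕ} (p q : Fin n → ℚ) : ratVec (p + q) = ratVec p + ratVec q := by
  funext i; simp [ratVec]

lemma ratVec_sub {n : ℕ} (p q : Fin n → ℚ) : ratVec (p - q) = ratVec p - ratVec q := by
  funext i; simp [ratVec]

lemma ratVec_smul {n : ℕ} (c : ℚ) (q : Fin n → ℚ) : ratVec (c • q) = (c : ℝ) • ratVec q := by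
  funext i; simp [ratVec]

lemma ratVec_dot {n : ℕ} (p q : Fin n → ℚ) : ratVec p ⬝ᵥ ratVec q = ((p ⬝ᵥ q : ℚ) : ℝ) := by
  simp [ratVec, dotProduct]

lemma mem_hull_iff {n : ℕ} (S : Finset (Fin n → ℚ)) (x : Fin n → ℝ) :
    x ∈ PointedCone.hull ℝ (ratVec '' (S : Set (Fin n → ℚ))) ↔
      ∃ c : (Fin n → ℚ) → ℝ, (∀ s, 0 ≤ c s) ∧ x = ∑ s ∈ S, c s • ratVec s := by
  classical
  constructor
  · intro hx
    induction hx using Submodule.span_induction with
    | mem y hy =>
      obtain ⟨s, hs, rfl⟩ := hy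
      refine ⟨fun t => if t = s then 1 else 0, fun t => by dsimp only; split_ifs <;> norm_num, ?_⟩
      rw [Finset.sum_eq_single s]
      · simp
      · intro b _ hb; simp [hb]
      · intro h; exact absurd hs h
    | zero => exact ⟨fun _ => 0, fun _ => le_rfl, by simp⟩
    | add y z _ _ hy hz =>
      obtain ⟨c, hc, rfl⟩ := hy
      obtain ⟨d, hd, rfl⟩ := hz
      refine ⟨fun s => c s + d s, fun s => add_nonneg (hc s) (hd s), ?_⟩
      rw [← Finset.sum_add_distrib]
      exact Finset.sum_congr rfl fun s _ => by rw [add_smul]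
    | smul a y _ hy =>
      obtain ⟨c, hc, rfl⟩ := hy
      refine ⟨fun s => (a : ℝ) * c s, fun s => mul_nonneg a.2 (hc s), ?_⟩
      rw [Finset.smul_sum]
      exact Finset.sum_congr rfl fun s _ => by rw [mul_smul]; rfl
  · rintro ⟨c, hc, rfl⟩
    refine Submodule.sum_mem _ fun s hs => ?_
    exact PointedCone.smul_mem _ (hc s) (Submodule.subset_span ⟨s, hs, rfl⟩)

lemma mw_step {n : ℕ} (S : Finset (Fin n → ℚ)) (q : Fin n → ℚ) :
    ∃ S' : Finset (Fin n → ℚ), ∀ x : Fin n → ℝ,
      x ∈ PointedCone.hull ℝ (ratVec '' (S' : Set (Fin n → ℚ))) ↔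
      x ∈ PointedCone.hull ℝ (ratVec '' (S : Set (Fin n → ℚ))) ∧ 0 ≤ ratVec q ⬝ᵥ x := by
  classical
  set P := S.filter (fun s => 0 < q ⬝ᵥ s) with hP
  set Z := S.filter (fun s => 0 ≤ q ⬝ᵥ s) with hZ
  set M := S.filter (fun s => q ⬝ᵥ s < 0) with hM
  set R := (P ×ˢ M).image (fun st => (q ⬝ᵥ st.1) • st.2 - (q ⬝ᵥ st.2) • st.1) with hR
  refine ⟨Z ∪ R, fun x => ⟨fun hx => ?_, fun hx => ?_⟩⟩
  · -- generators of the new cone lie in the old one and satisfy the inequality
    induction hx using Submodule.span_induction with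
    | mem y hy =>
      obtain ⟨s, hs, rfl⟩ := hy
      rcases Finset.mem_union.1 (Finset.mem_coe.1 hs) with h | h
      · obtain ⟨h1, h2⟩ := Finset.mem_filter.1 h
        exact ⟨Submodule.subset_span ⟨s, h1, rfl⟩, by rw [ratVec_dot]; exact_mod_cast h2⟩
      · obtain ⟨⟨s1, s2⟩, h1, rfl⟩ := Finset.mem_image.1 h
        obtain ⟨hs1, hs2⟩ := Finset.mem_product.1 h1
        obtain ⟨a1, a2⟩ := Finset.mem_filter.1 hs1
        obtain ⟨b1, b2⟩ := Finset.mem_filter.1 hs2
        simp only at a1 a2 b1 b2 ⊢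
        refine ⟨?_, ?_⟩
        · have : ratVec ((q ⬝ᵥ s1) • s2 - (q ⬝ᵥ s2) • s1)
              = ((q ⬝ᵥ s1 : ℚ) : ℝ) • ratVec s2 + ((-(q ⬝ᵥ s2) : ℚ) : ℝ) • ratVec s1 := by
            rw [ratVec_sub, ratVec_smul, ratVec_smul, sub_eq_add_neg, Rat.cast_neg, neg_smul]
          rw [this]
          refine Submodule.add_mem _ ?_ ?_
          · refine PointedCone.smul_mem _ (by exact_mod_cast a2.le)
              (Submodule.subset_span ⟨s2, b1, rfl⟩)
          · refine PointedCone.smul_mem _ ?_ (Submodule.subset_span ⟨s1, a1, rfl⟩)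
            exact_mod_cast (neg_pos.2 b2).le
        · rw [ratVec_dot]
          have : q ⬝ᵥ ((q ⬝ᵥ s1) • s2 - (q ⬝ᵥ s2) • s1) = 0 := by
            rw [dotProduct_sub, dotProduct_smul, dotProduct_smul]
            simp only [smul_eq_mul]; ring
          rw [this]; simp
    | zero => exact ⟨Submodule.zero_mem _, by simp⟩
    | add y z _ _ hy hz =>
      exact ⟨Submodule.add_mem _ hy.1 hz.1, by rw [dotProduct_add]; exact add_nonneg hy.2 hz.2⟩
    | smul a y _ hy =>
      refine ⟨Submodule.smul_mem _ a hy.1, ?_⟩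
      have : a • y = (a : ℝ) • y := rfl
      rw [this, dotProduct_smul]
      exact mul_nonneg a.2 hy.2
  · obtain ⟨hx1, hx2⟩ := hx
    obtain ⟨c, hc, rfl⟩ := (mem_hull_iff S x).1 hx1
    set α : ℝ := ∑ s ∈ P, c s * ((q ⬝ᵥ s : ℚ) : ℝ) with hα
    set β : ℝ := ∑ s ∈ M, c s * (-((q ⬝ᵥ s : ℚ) : ℝ)) with hβ
    have hsplit : ∀ (f : (Fin n → ℚ) → ℝ), (∑ s ∈ S, f s)
        = (∑ s ∈ Z, f s) + ∑ s ∈ M, f s := by
      intro f
      rw [hZ, hM, ← Finset.sum_filter_add_sum_filter_not S (fun s => 0 ≤ q ⬝ᵥ s)]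
      congr 2
      ext s; simp [not_le]
    have hsplitV : ∀ (f : (Fin n → ℚ) → (Fin n → ℝ)), (∑ s ∈ S, f s)
        = (∑ s ∈ Z, f s) + ∑ s ∈ M, f s := by
      intro f
      rw [hZ, hM, ← Finset.sum_filter_add_sum_filter_not S (fun s => 0 ≤ q ⬝ᵥ s)]
      congr 2
      ext s; simp [not_le]
    have hPZ : ∑ s ∈ Z, c s * ((q ⬝ᵥ s : ℚ) : ℝ) = α := by
      rw [hα]
      symm
      apply Finset.sum_subset
      · intro s hs
        obtain ⟨h1, h2⟩ := Finset.mem_filter.1 hs
        exact Finset.mem_filter.2 ⟨h1, h2.le⟩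
      · intro s hs hns
        obtain ⟨h1, h2⟩ := Finset.mem_filter.1 hs
        have : q ⬝ᵥ s = 0 := by
          refine le_antisymm ?_ h2
          by_contra hcon
          exact hns (Finset.mem_filter.2 ⟨h1, not_le.1 hcon⟩)
        rw [this]; simp
    have hαβ : β ≤ α := by
      have h := hx2
      rw [dotProduct_sum] at h
      have h' : ∑ s ∈ S, ratVec q ⬝ᵥ (c s • ratVec s) = α - β := by
        rw [hsplit]
        have e1 : ∀ s, ratVec q ⬝ᵥ (c s • ratVec s) = c s * ((q ⬝ᵥ s : ℚ) : ℝ) := by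
          intro s
          rw [dotProduct_smul, ratVec_dot, smul_eq_mul]
        simp only [e1]
        rw [hPZ, hβ, sub_eq_add_neg, ← Finset.sum_neg_distrib]
        congr 1
        exact Finset.sum_congr rfl fun s _ => by ring
      rw [h'] at h
      linarith
    have hβ0 : 0 ≤ β := by
      rw [hβ]
      refine Finset.sum_nonneg fun s hs => mul_nonneg (hc s) ?_
      obtain ⟨_, h2⟩ := Finset.mem_filter.1 hs
      have : ((q ⬝ᵥ s : ℚ) : ℝ) < 0 := by exact_mod_cast h2
      linarith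
    have hmemZ : ∀ s ∈ Z, ratVec s ∈ PointedCone.hull ℝ
        (ratVec '' ((Z ∪ R : Finset (Fin n → ℚ)) : Set (Fin n → ℚ))) := fun s hs =>
      Submodule.subset_span ⟨s, by simp [hs], rfl⟩
    have hmemR : ∀ s ∈ P, ∀ t ∈ M, ((q ⬝ᵥ s : ℚ) : ℝ) • ratVec t - ((q ⬝ᵥ t : ℚ) : ℝ) • ratVec s ∈
        PointedCone.hull ℝ
        (ratVec '' ((Z ∪ R : Finset (Fin n → ℚ)) : Set (Fin n → ℚ))) := by
      intro s hs t ht
      refine Submodule.subset_span ⟨(q ⬝ᵥ s) • t - (q ⬝ᵥ t) • s, ?_, ?_⟩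
      · rw [Finset.mem_coe, Finset.mem_union]
        right
        exact Finset.mem_image.2 ⟨(s, t), Finset.mem_product.2 ⟨hs, ht⟩, rfl⟩
      · rw [ratVec_sub, ratVec_smul, ratVec_smul]
    rw [hsplitV]
    by_cases hb : β = 0
    · -- all coefficients on `M` vanish
      have hz : ∑ s ∈ M, c s • ratVec s = 0 := by
        refine Finset.sum_eq_zero fun s hs => ?_
        have hnn : ∀ t ∈ M, 0 ≤ c t * (-((q ⬝ᵥ t : ℚ) : ℝ)) := by
          intro t ht
          obtain ⟨_, h2⟩ := Finset.mem_filter.1 ht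
          have : ((q ⬝ᵥ t : ℚ) : ℝ) < 0 := by exact_mod_cast h2
          exact mul_nonneg (hc t) (by linarith)
        have h0 := (Finset.sum_eq_zero_iff_of_nonneg hnn).1 (hβ ▸ hb) s hs
        obtain ⟨_, h2⟩ := Finset.mem_filter.1 hs
        have h3 : ((q ⬝ᵥ s : ℚ) : ℝ) < 0 := by exact_mod_cast h2
        have : c s = 0 := by
          rcases mul_eq_zero.1 h0 with h | h
          · exact h
          · linarith
        rw [this, zero_smul]
      rw [hz, add_zero]
      exact Submodule.sum_mem _ fun s hs => PointedCone.smul_mem _ (hc s) (hmemZ s hs)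
    · have hβpos : 0 < β := lt_of_le_of_ne hβ0 (Ne.symm hb)
      have hαpos : 0 < α := lt_of_lt_of_le hβpos hαβ
      -- the double sum
      have key : ∑ s ∈ P, ∑ t ∈ M, (c s * c t / α) •
          (((q ⬝ᵥ s : ℚ) : ℝ) • ratVec t - ((q ⬝ᵥ t : ℚ) : ℝ) • ratVec s)
          = ∑ t ∈ M, c t • ratVec t + (β / α) • ∑ s ∈ P, c s • ratVec s := by
        have e : ∀ s t : Fin n → ℚ, (c s * c t / α) •
            (((q ⬝ᵥ s : ℚ) : ℝ) • ratVec t - ((q ⬝ᵥ t : ℚ) : ℝ) • ratVec s)
            = (c s * ((q ⬝ᵥ s : ℚ) : ℝ)) • ((c t / α) • ratVec t)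
              + (c t * (-((q ⬝ᵥ t : ℚ) : ℝ))) • ((c s / α) • ratVec s) := by
          intro s t
          rw [smul_sub, smul_smul, smul_smul, smul_smul, smul_smul, sub_eq_add_neg, ← neg_smul]
          congr 2 <;> ring
        simp only [e, Finset.sum_add_distrib]
        congr 1
        · rw [Finset.sum_comm]
          simp only [← Finset.sum_smul]
          rw [← hα]
          refine Finset.sum_congr rfl fun t _ => ?_
          rw [smul_smul]; congr 1; field_simp
        · simp only [← Finset.sum_smul]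
          rw [← hβ, Finset.smul_sum]
          refine Finset.sum_congr rfl fun s _ => ?_
          rw [smul_smul, smul_smul]; congr 1; ring
      have hZP : ∑ s ∈ Z, c s • ratVec s
          = ∑ s ∈ Z.filter (fun s => ¬ 0 < q ⬝ᵥ s), c s • ratVec s + ∑ s ∈ P, c s • ratVec s := by
        rw [← Finset.sum_filter_add_sum_filter_not Z (fun s => 0 < q ⬝ᵥ s), add_comm]
        congr 2
        rw [hP, hZ, Finset.filter_filter]
        congr 1
        ext s
        constructor
        · rintro ⟨_, h⟩; exact h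
        · intro h; exact ⟨h.le, h⟩
      have hfin : ∑ s ∈ Z, c s • ratVec s + ∑ s ∈ M, c s • ratVec s
          = ∑ s ∈ Z.filter (fun s => ¬ 0 < q ⬝ᵥ s), c s • ratVec s
            + (1 - β / α) • ∑ s ∈ P, c s • ratVec s
            + ∑ s ∈ P, ∑ t ∈ M, (c s * c t / α) •
              (((q ⬝ᵥ s : ℚ) : ℝ) • ratVec t - ((q ⬝ᵥ t : ℚ) : ℝ) • ratVec s) := by
        rw [key, hZP, sub_smul, one_smul]
        abel
      rw [hfin]
      refine Submodule.add_mem _ (Submodule.add_mem _ ?_ ?_) ?_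
      · refine Submodule.sum_mem _ fun s hs => PointedCone.smul_mem _ (hc s) (hmemZ s ?_)
        exact (Finset.mem_filter.1 hs).1
      · refine PointedCone.smul_mem _ ?_ (Submodule.sum_mem _ fun s hs =>
          PointedCone.smul_mem _ (hc s) (hmemZ s ?_))
        · have : β / α ≤ 1 := (div_le_one hαpos).2 hαβ
          linarith
        · obtain ⟨h1, h2⟩ := Finset.mem_filter.1 hs
          exact Finset.mem_filter.2 ⟨h1, h2.le⟩
      · refine Submodule.sum_mem _ fun s hs => Submodule.sum_mem _ fun t ht =>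
          PointedCone.smul_mem _ ?_ (hmemR s hs t ht)
        exact div_nonneg (mul_nonneg (hc s) (hc t)) hαpos.le

/-- Rational Minkowski-Weyl theorem. -/
theorem minkowski_weyl {n : ℕ} (L : List (Fin n → ℚ)) :
    ∃ S : Finset (Fin n → ℚ), ∀ x : Fin n → ℝ,
      x ∈ PointedCone.hull ℝ (ratVec '' (S : Set (Fin n → ℚ))) ↔
      ∀ q ∈ L, 0 ≤ ratVec q ⬝ᵥ x := by
  classical
  induction L with
  | nil =>
    refine ⟨(Finset.univ.image (fun i : Fin n => (Pi.single i (1 : ℚ) : Fin n → ℚ))) ∪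
      (Finset.univ.image (fun i : Fin n => (Pi.single i (-1 : ℚ) : Fin n → ℚ))), fun x =>
        ⟨fun _ => by simp, fun _ => ?_⟩⟩
    have hx : x = ∑ i, x i • (Pi.single i (1 : ℝ) : Fin n → ℝ) := by
      funext j
      simp [Finset.sum_apply, Pi.single_apply]
    rw [hx]
    refine Submodule.sum_mem _ fun i _ => ?_
    by_cases h : 0 ≤ x i
    · refine PointedCone.smul_mem _ h (Submodule.subset_span ⟨Pi.single i 1, ?_, ?_⟩)
      · simp
      · funext j; by_cases hj : j = i
        · subst hj; simp [ratVec]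
        · simp [ratVec, hj]
    · have e : x i • (Pi.single i (1 : ℝ) : Fin n → ℝ)
          = (-x i) • (Pi.single i (-1 : ℝ) : Fin n → ℝ) := by
        funext j; by_cases hj : j = i
        · subst hj; simp
        · simp [hj]
      rw [e]
      refine PointedCone.smul_mem _ (by linarith) (Submodule.subset_span ⟨Pi.single i (-1), ?_, ?_⟩)
      · simp
      · funext j; by_cases hj : j = i
        · subst hj; simp [ratVec]
        · simp [ratVec, hj]
  | cons q L ih =>
    obtain ⟨S, hS⟩ := ih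
    obtain ⟨S', hS'⟩ := mw_step S q
    refine ⟨S', fun x => ?_⟩
    rw [hS' x, hS x]
    simp only [List.mem_cons, forall_eq_or_imp]
    tauto

end Pool.Agent.H93Cone
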