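import Pool.Agent.H93Cone.Main

/-!
The cone conjecture for pairs with an abelian group of automorphisms of maximal rank.

`Fin n → ℝ` is the real Neron-Severi space with its lattice of integral vectors, `Nef` the nef
cone, `Eff` the cone spanned by the classes `D` of effective divisors (not closed up), `G` the
image of the automorphism group of the pair.
-/

namespace Pool.Agent.H93Cone.MaximalRankResult

open Pool.Agent.H93Cone

theorem result {n : ℕ} (hn : 2 ≤ n)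
    (Nef Eff : PointedCone ℝ (Fin n → ℝ)) (D : Set (Fin n → ℤ))
    (hNef : IsClosed (Nef : Set (Fin n → ℝ)))
    (hample : (interior (Nef : Set (Fin n → ℝ))).Nonempty)
    (hEff : Eff = PointedCone.hull ℝ (intVec '' D))
    (hampleEff : interior (Nef : Set (Fin n → ℝ)) ⊆ (Eff : Set (Fin n → ℝ)))
    (hsal : ∀ x, x ∈ closure (Eff : Set (Fin n → ℝ)) → -x ∈ closure (Eff : Set (Fin n → ℝ)) →
      x = 0)
    (G : Subgroup (GL (Fin n) ℤ))
    (hGNef : ∀ g ∈ G, ∀ x ∈ Nef, act g.val x ∈ Nef)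
    (hGEff : ∀ g ∈ G, ∀ x ∈ Eff, act g.val x ∈ Eff)
    (φ : Multiplicative (Fin (n - 1) → ℤ) →* G) (hφ : Function.Injective φ) :
    ∃ S : Finset (Fin n → ℚ),
      (PointedCone.hull ℝ (ratVec '' (S : Set (Fin n → ℚ))) : Set (Fin n → ℝ)) ⊆
        (Nef : Set (Fin n → ℝ)) ∩ (Eff : Set (Fin n → ℝ)) ∧
      (Nef : Set (Fin n → ℝ)) ∩ (Eff : Set (Fin n → ℝ)) =
        ⋃ g ∈ G, act g.val ''
          (PointedCone.hull ℝ (ratVec '' (S : Set (Fin n → ℚ))) : Set (Fin n → ℝ)) ∧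
      ∀ g ∈ G, g ≠ 1 →
        interior (PointedCone.hull ℝ (ratVec '' (S : Set (Fin n → ℚ))) : Set (Fin n → ℝ)) ∩
        interior (act g.val ''
          (PointedCone.hull ℝ (ratVec '' (S : Set (Fin n → ℚ))) : Set (Fin n → ℝ))) = ∅ := by
  obtain ⟨S, h1, h2, h3⟩ := main_ge_two hn Nef Eff D hNef hample hEff
    (fun x hx => hampleEff hx) hsal G hGNef hGEff φ hφ
  refine ⟨S, fun y hy => h1 y hy, ?_, fun g hg hg1 => (h3 g hg hg1).inter_eq⟩
  apply Set.Subset.antisymm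
  · rintro x ⟨hx1, hx2⟩
    obtain ⟨g, hg, y, hy, hyx⟩ := h2 x hx1 hx2
    exact Set.mem_iUnion₂.2 ⟨g, hg, y, hy, hyx⟩
  · intro x hx
    obtain ⟨g, hg, y, hy, rfl⟩ := Set.mem_iUnion₂.1 hx
    exact ⟨hGNef g hg y (h1 y hy).1, hGEff g hg y (h1 y hy).2⟩

end Pool.Agent.H93Cone.MaximalRankResult
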