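import Pool.Agent.H93Cone.Basic

/-!
Commuting integer matrices: complex characters, eigenvalues, finiteness.
-/

namespace Pool.Agent.H93Cone

open Finset Module

/-- Commuting endomorphisms over an algebraically closed field have a common eigenvector in
every nonzero invariant subspace. -/
lemma exists_common_eigvec {ι F V : Type*} [Field F] [IsAlgClosed F] [AddCommGroup V] [Module F V]
    [FiniteDimensional F V] (f : ι → V →ₗ[F] V) (hcomm : ∀ i j v, f i (f j v) = f j (f i v))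
    (W : Submodule F V) (hW : W ≠ ⊥) (hinv : ∀ i, ∀ v ∈ W, f i v ∈ W) :
    ∃ v ∈ W, v ≠ 0 ∧ ∀ i, ∃ μ : F, f i v = μ • v := by
  classical
  suffices H : ∀ k : ℕ, ∀ W : Submodule F V, finrank F W = k → W ≠ ⊥ →
      (∀ i, ∀ v ∈ W, f i v ∈ W) → ∃ v ∈ W, v ≠ 0 ∧ ∀ i, ∃ μ : F, f i v = μ • v from
    H _ W rfl hW hinv
  intro k
  induction k using Nat.strong_induction_on with
  | _ k ih =>
  intro W hk hW hinv
  by_cases hsc : ∀ i, ∃ μ : F, ∀ v ∈ W, f i v = μ • v
  · obtain ⟨v, hv, hv0⟩ := (Submodule.ne_bot_iff W).1 hW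
    exact ⟨v, hv, hv0, fun i => ⟨(hsc i).choose, (hsc i).choose_spec v hv⟩⟩
  · push Not at hsc
    obtain ⟨i, hi⟩ := hsc
    have : Nontrivial W := (Submodule.nontrivial_iff_ne_bot).2 hW
    obtain ⟨μ, hμ⟩ := Module.End.exists_eigenvalue ((f i).restrict (hinv i))
    obtain ⟨w, hw⟩ := hμ.exists_hasEigenvector
    let g : V →ₗ[F] V := f i - μ • LinearMap.id
    have hg : ∀ v, g v = f i v - μ • v := fun v => rfl
    set E : Submodule F V := W ⊓ LinearMap.ker g with hE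
    have hEW : E ≤ W := inf_le_left
    have hmem : ∀ v, v ∈ E ↔ v ∈ W ∧ f i v = μ • v := by
      intro v
      rw [hE, Submodule.mem_inf, LinearMap.mem_ker, hg, sub_eq_zero]
    have hEbot : E ≠ ⊥ := by
      rw [Submodule.ne_bot_iff]
      refine ⟨w, (hmem _).2 ⟨w.2, ?_⟩, ?_⟩
      · have h1 := hw.apply_eq_smul
        have h2 := congrArg (Subtype.val) h1
        simpa using h2
      · intro h
        exact hw.2 (Subtype.ext h)
    have hElt : E < W := by
      refine lt_of_le_of_ne hEW fun h => ?_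
      obtain ⟨v, hv, hne⟩ := hi μ
      have : v ∈ E := h ▸ hv
      exact hne ((hmem v).1 this).2
    have hlt : finrank F E < k := hk ▸ Submodule.finrank_lt_finrank_of_lt hElt
    have hEinv : ∀ j, ∀ v ∈ E, f j v ∈ E := by
      intro j v hv
      obtain ⟨hv1, hv2⟩ := (hmem v).1 hv
      exact (hmem _).2 ⟨hinv j v hv1, by rw [hcomm i j, hv2, map_smul]⟩
    obtain ⟨v, hv, h⟩ := ih _ hlt E rfl hEbot hEinv
    exact ⟨v, hEW hv, h⟩

/-- Left action of an integer matrix on complex row vectors. -/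
noncomputable def lc {n : ℕ} (g : Matrix (Fin n) (Fin n) ℤ) : (Fin n → ℂ) →ₗ[ℂ] (Fin n → ℂ) :=
  Matrix.toLin' (g.map (Int.cast : ℤ → ℂ)).transpose

lemma lc_apply {n : ℕ} (g : Matrix (Fin n) (Fin n) ℤ) (η : Fin n → ℂ) :
    lc g η = Matrix.vecMul η (g.map (Int.cast : ℤ → ℂ)) := by
  rw [lc, Matrix.toLin'_apply, Matrix.mulVec_transpose]

lemma map_mulC {n : ℕ} (g h : Matrix (Fin n) (Fin n) ℤ) :
    (g * h).map (Int.cast : ℤ → ℂ) = g.map (Int.cast : ℤ → ℂ) * h.map (Int.cast : ℤ → ℂ) :=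
  Matrix.map_mul (f := Int.castRingHom ℂ) (L := g) (M := h)

lemma lc_mul {n : ℕ} (g h : Matrix (Fin n) (Fin n) ℤ) (η : Fin n → ℂ) :
    lc (g * h) η = lc h (lc g η) := by
  rw [lc_apply, lc_apply, lc_apply, map_mulC, Matrix.vecMul_vecMul]

lemma lc_one {n : ℕ} (η : Fin n → ℂ) : lc (1 : Matrix (Fin n) (Fin n) ℤ) η = η := by
  rw [lc_apply]; simp

/-- the complex characteristic polynomial -/
noncomputable def cp {n : ℕ} (g : Matrix (Fin n) (Fin n) ℤ) : Polynomial ℂ :=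
  g.charpoly.map (Int.castRingHom ℂ)

lemma cp_eq {n : ℕ} (g : Matrix (Fin n) (Fin n) ℤ) :
    cp g = (g.map (Int.cast : ℤ → ℂ)).charpoly := by
  rw [cp]
  exact (Matrix.charpoly_map g (Int.castRingHom ℂ)).symm

lemma isRoot_cp_iff {n : ℕ} (g : Matrix (Fin n) (Fin n) ℤ) (μ : ℂ) :
    (cp g).IsRoot μ ↔ ∃ η : Fin n → ℂ, η ≠ 0 ∧ lc g η = μ • η := by
  have h1 : (cp g) = (lc g).charpoly := by
    rw [lc, Matrix.charpoly_toLin', Matrix.charpoly_transpose, cp_eq]
  rw [h1, ← Module.End.hasEigenvalue_iff_isRoot_charpoly]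
  constructor
  · intro h
    obtain ⟨v, hv⟩ := h.exists_hasEigenvector
    exact ⟨v, hv.2, hv.apply_eq_smul⟩
  · rintro ⟨η, h0, h⟩
    exact Module.End.hasEigenvalue_of_hasEigenvector ⟨Module.End.mem_eigenspace_iff.2 h, h0⟩

lemma cp_monic {n : ℕ} (g : Matrix (Fin n) (Fin n) ℤ) : (cp g).Monic :=
  (Matrix.charpoly_monic g).map _

/-- Finitely many complex numbers are eigenvalues of integer matrices with bounded
eigenvalues. -/
lemma finite_eigenvalues (n : ℕ) (B : ℝ) :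
    ∃ F : Finset ℂ, ∀ g : Matrix (Fin n) (Fin n) ℤ, (∀ μ, (cp g).IsRoot μ → ‖μ‖ ≤ B) →
      ∀ μ, (cp g).IsRoot μ → μ ∈ F := by
  classical
  set C : ℝ := max B 1 ^ n * n.choose (n / 2) with hC
  obtain ⟨N, hN⟩ := exists_nat_ge C
  set U : Set ℤ := Set.Icc (-(N : ℤ)) N with hU
  have hUf : U.Finite := Set.finite_Icc _ _
  have hfin := Polynomial.bUnion_roots_finite (Int.castRingHom ℂ) n hUf
  refine ⟨hfin.toFinset, fun g hg μ hμ => ?_⟩
  rw [Set.Finite.mem_toFinset]
  simp only [Set.mem_iUnion]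
  refine ⟨g.charpoly, ⟨?_, ?_⟩, ?_⟩
  · rw [Matrix.charpoly_natDegree_eq_dim g]; simp
  · intro i
    have h1 := Polynomial.coeff_bdd_of_roots_le (B := B) (d := n) (Int.castRingHom ℂ)
      (p := g.charpoly) (Matrix.charpoly_monic g) (IsAlgClosed.splits _)
      (by rw [Matrix.charpoly_natDegree_eq_dim g]; simp)
      (fun z hz => hg z ((Polynomial.mem_roots (cp_monic g).ne_zero).1 hz)) i
    rw [Polynomial.coeff_map] at h1
    have h2 : |((g.charpoly.coeff i : ℤ) : ℝ)| ≤ N := by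
      have : ‖(Int.castRingHom ℂ) (g.charpoly.coeff i)‖ = |((g.charpoly.coeff i : ℤ) : ℝ)| := by
        simp
      rw [this] at h1
      exact h1.trans hN
    rw [hU, Set.mem_Icc]
    have := abs_le.1 h2
    constructor
    · exact_mod_cast this.1
    · exact_mod_cast this.2
  · have h3 : μ ∈ (cp g).roots := (Polynomial.mem_roots (cp_monic g).ne_zero).2 hμ
    rw [Finset.mem_coe, Multiset.mem_toFinset]
    exact h3

end Pool.Agent.H93Cone
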