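import Pool.Agent.H93Cone.Weights1

/-!
Characters of a commuting family of integer matrices indexed by `ℤ^r`.
-/

namespace Pool.Agent.H93Cone

open Finset Module

/-- `φ` is a homomorphism from the additive group `ℤ^r` to the monoid of integer matrices. -/
structure IsRep {r n : ℕ} (φ : (Fin r → ℤ) → Matrix (Fin n) (Fin n) ℤ) : Prop where
  zero : φ 0 = 1
  add : ∀ z w, φ (z + w) = φ z * φ w

/-- The set of characters with a common left eigenvector. -/
def Chars {r n : ℕ} (φ : (Fin r → ℤ) → Matrix (Fin n) (Fin n) ℤ) : Set ((Fin r → ℤ) → ℂ) :=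
  {χ | ∃ η : Fin n → ℂ, η ≠ 0 ∧ ∀ z, lc (φ z) η = χ z • η}

variable {r n : ℕ} {φ : (Fin r → ℤ) → Matrix (Fin n) (Fin n) ℤ}

lemma IsRep.comm (h : IsRep φ) (z w : Fin r → ℤ) : φ z * φ w = φ w * φ z := by
  rw [← h.add, ← h.add, add_comm]

lemma IsRep.nsmul (h : IsRep φ) (k : ℕ) (z : Fin r → ℤ) : φ (k • z) = φ z ^ k := by
  induction k with
  | zero => simp [h.zero]
  | succ k ih => rw [succ_nsmul, h.add, ih, pow_succ]

lemma IsRep.mul_neg (h : IsRep φ) (z : Fin r → ℤ) : φ z * φ (-z) = 1 := by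
  rw [← h.add, add_neg_cancel, h.zero]

/-- The chosen common left eigenvector. -/
noncomputable def eigv (χ : Chars φ) : Fin n → ℂ := χ.2.choose

lemma eigv_ne (χ : Chars φ) : eigv χ ≠ 0 := χ.2.choose_spec.1

lemma lc_eigv (χ : Chars φ) (z : Fin r → ℤ) : lc (φ z) (eigv χ) = χ.1 z • eigv χ :=
  χ.2.choose_spec.2 z

lemma char_zero (h : IsRep φ) (χ : Chars φ) : χ.1 0 = 1 := by
  have h1 := lc_eigv χ 0
  rw [h.zero, lc_one] at h1
  have h2 : (χ.1 0 - 1) • eigv χ = 0 := by rw [sub_smul, one_smul, ← h1, sub_self]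
  rcases smul_eq_zero.1 h2 with h3 | h3
  · exact sub_eq_zero.1 h3
  · exact absurd h3 (eigv_ne χ)

lemma char_add (h : IsRep φ) (χ : Chars φ) (z w : Fin r → ℤ) :
    χ.1 (z + w) = χ.1 z * χ.1 w := by
  have h1 := lc_eigv χ (z + w)
  rw [h.add, lc_mul, lc_eigv, map_smul, lc_eigv, smul_smul] at h1
  have h2 : (χ.1 (z + w) - χ.1 z * χ.1 w) • eigv χ = 0 := by rw [sub_smul, ← h1, sub_self]
  rcases smul_eq_zero.1 h2 with h3 | h3
  · exact sub_eq_zero.1 h3
  · exact absurd h3 (eigv_ne χ)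

lemma char_ne_zero (h : IsRep φ) (χ : Chars φ) (z : Fin r → ℤ) : χ.1 z ≠ 0 := by
  intro h0
  have h1 := char_add h χ z (-z)
  rw [add_neg_cancel, char_zero h, h0, zero_mul] at h1
  exact one_ne_zero h1

lemma char_nsmul (h : IsRep φ) (χ : Chars φ) (k : ℕ) (z : Fin r → ℤ) :
    χ.1 (k • z) = χ.1 z ^ k := by
  induction k with
  | zero => simp [char_zero h]
  | succ k ih => rw [succ_nsmul, char_add h, ih, pow_succ]

lemma char_isRoot (χ : Chars φ) (z : Fin r → ℤ) : (cp (φ z)).IsRoot (χ.1 z) :=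
  (isRoot_cp_iff _ _).2 ⟨eigv χ, eigv_ne χ, lc_eigv χ z⟩

lemma lc_comm (h : IsRep φ) (z w : Fin r → ℤ) (v : Fin n → ℂ) :
    lc (φ z) (lc (φ w) v) = lc (φ w) (lc (φ z) v) := by
  rw [← lc_mul, ← lc_mul, h.comm]

lemma exists_char_of_isRoot (h : IsRep φ) (z : Fin r → ℤ) (μ : ℂ) (hμ : (cp (φ z)).IsRoot μ) :
    ∃ χ : Chars φ, χ.1 z = μ := by
  classical
  obtain ⟨η, h0, h1⟩ := (isRoot_cp_iff _ _).1 hμ
  let E : Submodule ℂ (Fin n → ℂ) := LinearMap.ker
    ((lc (φ z) - μ • LinearMap.id : (Fin n → ℂ) →ₗ[ℂ] (Fin n → ℂ)))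
  have hmem : ∀ v, v ∈ E ↔ lc (φ z) v = μ • v := by
    intro v
    show (lc (φ z) - μ • LinearMap.id : (Fin n → ℂ) →ₗ[ℂ] (Fin n → ℂ)) v = 0 ↔ _
    rw [LinearMap.sub_apply, LinearMap.smul_apply, LinearMap.id_apply, sub_eq_zero]
  have hE : E ≠ ⊥ := (Submodule.ne_bot_iff _).2 ⟨η, (hmem η).2 h1, h0⟩
  obtain ⟨v, hv, hv0, hv1⟩ := exists_common_eigvec (fun w => lc (φ w)) (lc_comm h) E hE
    (fun w v hv => (hmem _).2 (by rw [lc_comm h, (hmem v).1 hv, map_smul]))
  choose χ hχ using hv1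
  refine ⟨⟨χ, v, hv0, hχ⟩, ?_⟩
  have h2 := hχ z
  rw [(hmem v).1 hv] at h2
  have h3 : (χ z - μ) • v = 0 := by rw [sub_smul, ← h2, sub_self]
  rcases smul_eq_zero.1 h3 with h4 | h4
  · exact sub_eq_zero.1 h4
  · exact absurd h4 hv0

/-- Eigenvectors with distinct characters are independent (over any field). -/
lemma indep_of_chars {ι κ F V : Type*} [Field F] [AddCommGroup V] [Module F V]
    (f : ι → Module.End F V) (hcomm : ∀ i j v, f i (f j v) = f j (f i v))
    (χ : κ → ι → F) (hχ : Function.Injective χ) (v : κ → V) (hv0 : ∀ k, v k ≠ 0)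
    (hv : ∀ k i, f i (v k) = χ k i • v k) : LinearIndependent F v := by
  have hcomm' : ∀ i j, Commute (f i) (f j) := by
    intro i j
    refine LinearMap.ext fun v => ?_
    exact hcomm i j v
  have hmaps : ∀ (i j : ι) (μ : F), Set.MapsTo (f i) ((f j).maxGenEigenspace μ)
      ((f j).maxGenEigenspace μ) := fun i j μ =>
    Module.End.mapsTo_maxGenEigenspace_of_comm (hcomm' j i) μ
  have hind := Module.End.independent_iInf_maxGenEigenspace_of_forall_mapsTo f hmaps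
  have h2 : iSupIndep (fun k : κ => ⨅ i, (f i).maxGenEigenspace (χ k i)) :=
    hind.comp (f := χ) hχ
  refine iSupIndep.linearIndependent _ h2 (fun k => ?_) hv0
  rw [Submodule.mem_iInf]
  intro i
  rw [Module.End.mem_maxGenEigenspace]
  exact ⟨1, by
    rw [pow_one, LinearMap.sub_apply, LinearMap.smul_apply, Module.End.one_apply, hv k i,
      sub_self]⟩

lemma eigv_indep (h : IsRep φ) : LinearIndependent ℂ (fun χ : Chars φ => eigv χ) :=
  indep_of_chars (fun w => lc (φ w)) (lc_comm h) (fun χ : Chars φ => χ.1)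
    Subtype.val_injective _ eigv_ne lc_eigv

lemma chars_finite (h : IsRep φ) : Finite (Chars φ) :=
  (eigv_indep h).finite

end Pool.Agent.H93Cone
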