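import Pool.Agent.H93Cone.Weights2

/-!
Logarithmic embedding of a commuting family of integer matrices.
-/

namespace Pool.Agent.H93Cone

open Finset Module

variable {r n : ℕ} {φ : (Fin r → ℤ) → Matrix (Fin n) (Fin n) ℤ}

/-- The logarithmic map. -/
noncomputable def Lam (h : IsRep φ) : (Fin r → ℤ) →ₗ[ℤ] (Chars φ → ℝ) :=
  AddMonoidHom.toIntLinearMap
    { toFun := fun z χ => Real.log ‖χ.1 z‖
      map_zero' := by funext χ; simp [char_zero h]
      map_add' := by
        intro z w
        funext χ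
        show Real.log ‖χ.1 (z + w)‖ = Real.log ‖χ.1 z‖ + Real.log ‖χ.1 w‖
        rw [char_add h, norm_mul, Real.log_mul (norm_ne_zero_iff.2 (char_ne_zero h χ z))
          (norm_ne_zero_iff.2 (char_ne_zero h χ w))] }

lemma Lam_apply (h : IsRep φ) (z : Fin r → ℤ) (χ : Chars φ) :
    Lam h z χ = Real.log ‖χ.1 z‖ := rfl

lemma norm_det (h : IsRep φ) (z : Fin r → ℤ) :
    ‖((φ z).map (Int.cast : ℤ → ℂ)).det‖ = 1 := by
  have h1 : (φ z).det * (φ (-z)).det = 1 := by
    rw [← Matrix.det_mul, h.mul_neg, Matrix.det_one]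
  have h2 : IsUnit (φ z).det := IsUnit.of_mul_eq_one _ h1
  have h3 : ((φ z).map (Int.cast : ℤ → ℂ)).det = (((φ z).det : ℤ) : ℂ) :=
    ((Int.castRingHom ℂ).map_det (φ z)).symm
  rw [h3]
  rcases Int.isUnit_iff.1 h2 with h4 | h4 <;> simp [h4]

lemma exists_small_root (hn : 0 < n) (h : IsRep φ) (z : Fin r → ℤ) :
    ∃ χ : Chars φ, 1 ≤ ‖χ.1 z‖ := by
  by_contra hcon
  push Not at hcon
  have h1 := norm_det h z
  rw [Matrix.det_eq_prod_roots_charpoly] at h1
  set R := ((φ z).map (Int.cast : ℤ → ℂ)).charpoly.roots with hR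
  have hcard : R.card = n := by
    rw [hR, Polynomial.splits_iff_card_roots.1
      (IsAlgClosed.splits ((φ z).map (Int.cast : ℤ → ℂ)).charpoly),
      Matrix.charpoly_natDegree_eq_dim]
    simp
  have hlt : ∀ x ∈ R, ‖x‖ < 1 := by
    intro x hx
    have h2 : (cp (φ z)).IsRoot x := by
      rw [cp_eq]
      exact (Polynomial.mem_roots (Matrix.charpoly_monic _).ne_zero).1 hx
    obtain ⟨χ, hχ⟩ := exists_char_of_isRoot h z x h2
    rw [← hχ]
    exact hcon χ
  have key : ∀ S : Multiset ℂ, (∀ x ∈ S, ‖x‖ < 1) → 0 < S.card → ‖S.prod‖ < 1 := by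
    intro S
    induction S using Multiset.induction_on with
    | empty => intro _ h; simp at h
    | cons a S ih =>
      intro hS _
      rw [Multiset.prod_cons, norm_mul]
      have ha : ‖a‖ < 1 := hS a (Multiset.mem_cons_self a S)
      have hS' : ∀ x ∈ S, ‖x‖ < 1 := fun x hx => hS x (Multiset.mem_cons_of_mem hx)
      have hle : ‖S.prod‖ ≤ 1 := by
        by_cases hc : 0 < S.card
        · exact (ih hS' hc).le
        · have : S = 0 := by
            rw [← Multiset.card_eq_zero]; omega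
          simp [this]
      calc ‖a‖ * ‖S.prod‖ ≤ ‖a‖ * 1 := mul_le_mul_of_nonneg_left hle (norm_nonneg _)
        _ < 1 := by rwa [mul_one]
  have := key R hlt (by rw [hcard]; exact hn)
  linarith

lemma lam_mem_span (h : IsRep φ) [Fintype (Chars φ)] (v : Chars φ → ℝ)
    (hv : v ∈ Submodule.span ℝ (Set.range (Lam h))) :
    ∃ C : ℝ, ∀ t : ℝ, ∃ z : Fin r → ℤ, ∀ χ, |Lam h z χ - t * v χ| ≤ C := by
  classical
  set b : Fin r → (Chars φ → ℝ) := fun j => Lam h (Pi.single j 1) with hb
  have hLam : ∀ z, Lam h z = ∑ j, (z j : ℝ) • b j := by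
    intro z
    have hz : z = ∑ j, z j • (Pi.single j (1 : ℤ) : Fin r → ℤ) := by
      funext i
      simp [Finset.sum_apply, Pi.single_apply]
    conv_lhs => rw [hz]
    rw [map_sum]
    refine Finset.sum_congr rfl fun j _ => ?_
    rw [map_smul, hb]
    exact (Int.cast_smul_eq_zsmul ℝ (z j) _).symm
  have hspan : Submodule.span ℝ (Set.range (Lam h)) ≤ Submodule.span ℝ (Set.range b) := by
    rw [Submodule.span_le]
    rintro _ ⟨z, rfl⟩
    rw [hLam z]
    exact Submodule.sum_mem _ fun j _ => Submodule.smul_mem _ _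
      (Submodule.subset_span ⟨j, rfl⟩)
  obtain ⟨c, hc⟩ := (Submodule.mem_span_range_iff_exists_fun ℝ).1 (hspan hv)
  refine ⟨∑ j, ‖b j‖, fun t => ⟨fun j => ⌊t * c j⌋, fun χ => ?_⟩⟩
  rw [hLam, ← hc]
  simp only [Finset.sum_apply, Pi.smul_apply, smul_eq_mul]
  rw [Finset.mul_sum, ← Finset.sum_sub_distrib]
  refine (Finset.abs_sum_le_sum_abs _ _).trans (Finset.sum_le_sum fun j _ => ?_)
  have e : (⌊t * c j⌋ : ℝ) * b j χ - t * (c j * b j χ)
      = -(Int.fract (t * c j)) * b j χ := by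
    rw [← Int.self_sub_floor]; ring
  rw [e, abs_mul, abs_neg, abs_of_nonneg (Int.fract_nonneg _)]
  calc Int.fract (t * c j) * |b j χ| ≤ 1 * ‖b j‖ := by
        refine mul_le_mul (Int.fract_lt_one _).le ?_ (abs_nonneg _) zero_le_one
        exact norm_le_pi_norm (b j) χ
    _ = ‖b j‖ := one_mul _

lemma span_ne_top (hn : 0 < n) (h : IsRep φ) [Fintype (Chars φ)] :
    Submodule.span ℝ (Set.range (Lam h)) ≠ ⊤ := by
  intro htop
  obtain ⟨C, hC⟩ := lam_mem_span h (fun _ => (-1 : ℝ)) (htop ▸ Submodule.mem_top)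
  obtain ⟨z, hz⟩ := hC (|C| + 1)
  obtain ⟨χ, hχ⟩ := exists_small_root hn h z
  have h1 := (abs_le.1 (hz χ)).2
  have h2 : 0 ≤ Lam h z χ := by
    rw [Lam_apply]; exact Real.log_nonneg hχ
  have h3 := le_abs_self C
  linarith

lemma discrete_range (h : IsRep φ) [Fintype (Chars φ)] :
    DiscreteTopology (LinearMap.range (Lam h)) := by
  classical
  obtain ⟨F, hF⟩ := finite_eigenvalues n (Real.exp 1)
  refine discreteTopology_of_isOpen_singleton_zero ?_
  refine isOpen_singleton_of_finite_mem_nhds 0 (s := Metric.closedBall 0 1) ?_ ?_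
  · exact Metric.closedBall_mem_nhds _ one_pos
  · have hfin : (Set.pi Set.univ (fun _ : Chars φ =>
        ((F.image (fun μ => Real.log ‖μ‖) : Finset ℝ) : Set ℝ))).Finite :=
      Set.Finite.pi fun _ => Finset.finite_toSet _
    refine Set.Finite.of_finite_image (f := Subtype.val) (hfin.subset ?_)
      Subtype.val_injective.injOn
    rintro _ ⟨⟨v, hv⟩, hv1, rfl⟩
    obtain ⟨z, rfl⟩ := hv
    have hnorm : ‖Lam h z‖ ≤ 1 := by
      have := hv1
      rw [Metric.mem_closedBall, dist_zero_right] at this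
      exact this
    have hb : ∀ χ : Chars φ, ‖χ.1 z‖ ≤ Real.exp 1 := by
      intro χ
      have h1 : Real.log ‖χ.1 z‖ ≤ 1 := by
        have := (norm_le_pi_norm (Lam h z) χ).trans hnorm
        rw [Lam_apply, Real.norm_eq_abs] at this
        exact (abs_le.1 this).2
      exact (Real.log_le_iff_le_exp (norm_pos_iff.2 (char_ne_zero h χ z))).1 h1
    intro χ _
    rw [Finset.mem_coe, Finset.mem_image]
    refine ⟨χ.1 z, hF (φ z) ?_ _ (char_isRoot χ z), rfl⟩
    intro μ hμ
    obtain ⟨χ', hχ'⟩ := exists_char_of_isRoot h z μ hμ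
    rw [← hχ']
    exact hb χ'

lemma finrank_range_le (hn : 0 < n) (h : IsRep φ) [Fintype (Chars φ)] :
    finrank ℤ (LinearMap.range (Lam h)) + 1 ≤ Fintype.card (Chars φ) ∧
    finrank ℝ (Submodule.span ℝ (Set.range (Lam h))) = finrank ℤ (LinearMap.range (Lam h)) := by
  have hspanZ : Submodule.span ℤ (Set.range (Lam h)) = LinearMap.range (Lam h) := by
    have : (Set.range (Lam h)) = ((LinearMap.range (Lam h) : Submodule ℤ _) : Set _) := rfl
    rw [this, Submodule.span_eq]
  have hd : DiscreteTopology (Submodule.span ℤ (Set.range (Lam h))) := by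
    rw [hspanZ]; exact discrete_range h
  have h1 := Real.finrank_eq_int_finrank_of_discrete hd
  rw [Set.finrank, Set.finrank, hspanZ] at h1
  refine ⟨?_, h1⟩
  rw [← h1]
  have h2 := Submodule.finrank_lt (lt_top_iff_ne_top.2 (span_ne_top hn h)).ne
  rw [finrank_fintype_fun_eq_card] at h2
  omega

lemma finrank_ker_add (h : IsRep φ) :
    finrank ℤ (LinearMap.ker (Lam h)) + finrank ℤ (LinearMap.range (Lam h)) = r := by
  have h1 := LinearMap.rank_range_add_rank_ker (Lam h)
  have h2 : finrank ℤ (LinearMap.range (Lam h)) + finrank ℤ (LinearMap.ker (Lam h))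
      = finrank ℤ (Fin r → ℤ) := by
    rw [finrank, finrank, finrank, ← h1, Cardinal.toNat_add]
    · exact Module.rank_lt_aleph0 ℤ _
    · exact Module.rank_lt_aleph0 ℤ _
  rw [finrank_fintype_fun_eq_card, Fintype.card_fin] at h2
  omega

/-- A uniform power of every element of the kernel of the logarithm is unipotent. -/
lemma exists_unipotent_power (h : IsRep φ) :
    ∃ m : ℕ, 0 < m ∧ ∀ z ∈ LinearMap.ker (Lam h), (∀ χ : Chars φ, χ.1 (m • z) = 1) ∧
      (φ (m • z) - 1) ^ n = 0 := by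
  classical
  obtain ⟨F, hF⟩ := finite_eigenvalues n 1
  refine ⟨(F.card).factorial, Nat.factorial_pos _, fun z hz => ?_⟩
  have hnorm : ∀ (χ : Chars φ), ‖χ.1 z‖ = 1 := by
    intro χ
    have h1 : Real.log ‖χ.1 z‖ = 0 := by
      have := congrFun (LinearMap.mem_ker.1 hz) χ
      rwa [Lam_apply] at this
    exact Real.eq_one_of_pos_of_log_eq_zero (norm_pos_iff.2 (char_ne_zero h χ z)) h1
  have hpow : ∀ (χ : Chars φ) (k : ℕ), χ.1 z ^ k ∈ F := by
    intro χ k
    rw [← char_nsmul h]
    refine hF (φ (k • z)) ?_ _ (char_isRoot χ _)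
    intro μ hμ
    obtain ⟨χ', hχ'⟩ := exists_char_of_isRoot h _ μ hμ
    rw [← hχ', char_nsmul h, norm_pow, hnorm χ', one_pow]
  have hone : ∀ χ : Chars φ, χ.1 ((F.card).factorial • z) = 1 := by
    intro χ
    rw [char_nsmul h]
    obtain ⟨i, hi, j, hj, hij, he⟩ := Finset.exists_ne_map_eq_of_card_lt_of_maps_to
      (s := Finset.range (F.card + 1)) (t := F) (by simp) (f := fun k => χ.1 z ^ k)
      (fun k _ => hpow χ k)
    have key : ∀ i j : ℕ, i < j → j ≤ F.card → χ.1 z ^ i = χ.1 z ^ j →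
        χ.1 z ^ (F.card).factorial = 1 := by
      intro i j hlt hle he
      have h1 : χ.1 z ^ (j - i) = 1 := by
        have h2 : χ.1 z ^ i * χ.1 z ^ (j - i) = χ.1 z ^ i * 1 := by
          rw [← pow_add, Nat.add_sub_cancel' hlt.le, mul_one, he]
        exact mul_left_cancel₀ (pow_ne_zero _ (char_ne_zero h χ z)) h2
      obtain ⟨c, hc⟩ := Nat.dvd_factorial (Nat.sub_pos_of_lt hlt) ((Nat.sub_le j i).trans hle)
      rw [hc, pow_mul, h1, one_pow]
    rw [Finset.mem_range] at hi hj
    rcases lt_or_gt_of_ne hij with hlt | hlt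
    · exact key i j hlt (by omega) he
    · exact key j i hlt (by omega) he.symm
  refine ⟨hone, ?_⟩
  set w := (F.card).factorial • z with hw
  -- the characteristic polynomial is `(X - 1)^n`
  have hroots : ∀ x ∈ ((φ w).map (Int.cast : ℤ → ℂ)).charpoly.roots, x = 1 := by
    intro x hx
    have h2 : (cp (φ w)).IsRoot x := by
      rw [cp_eq]
      exact (Polynomial.mem_roots (Matrix.charpoly_monic _).ne_zero).1 hx
    obtain ⟨χ, hχ⟩ := exists_char_of_isRoot h w x h2
    rw [← hχ]; exact hone χ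
  have hchar : ((φ w).map (Int.cast : ℤ → ℂ)).charpoly = (Polynomial.X - Polynomial.C 1) ^ n := by
    have hs := IsAlgClosed.splits ((φ w).map (Int.cast : ℤ → ℂ)).charpoly
    have hcard : ((φ w).map (Int.cast : ℤ → ℂ)).charpoly.roots.card = n := by
      rw [Polynomial.splits_iff_card_roots.1 hs, Matrix.charpoly_natDegree_eq_dim]
      simp
    have hrep : ((φ w).map (Int.cast : ℤ → ℂ)).charpoly.roots = Multiset.replicate n 1 :=
      Multiset.eq_replicate.2 ⟨hcard, hroots⟩
    rw [hs.eq_prod_roots_of_monic (Matrix.charpoly_monic _), hrep]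
    simp
  have hCH := Matrix.aeval_self_charpoly ((φ w).map (Int.cast : ℤ → ℂ))
  rw [hchar] at hCH
  simp only [map_pow, map_sub, Polynomial.aeval_X, Polynomial.aeval_C, map_one] at hCH
  have hinj : Function.Injective (fun g : Matrix (Fin n) (Fin n) ℤ =>
      g.map (Int.cast : ℤ → ℂ)) := by
    intro a b hab
    ext i j
    have := congrFun (congrFun hab i) j
    simpa using this
  apply hinj
  have hmap : ((φ w - 1) ^ n).map (Int.cast : ℤ → ℂ)
      = ((φ w).map (Int.cast : ℤ → ℂ) - 1) ^ n := by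
    have e := map_pow ((Int.castRingHom ℂ).mapMatrix) (φ w - 1) n
    rw [map_sub, map_one] at e
    exact e
  show ((φ w - 1) ^ n).map (Int.cast : ℤ → ℂ) = (0 : Matrix (Fin n) (Fin n) ℤ).map _
  rw [hmap, hCH]
  ext i j; simp

end Pool.Agent.H93Cone
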