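import Pool.Agent.H93Cone.Weights3

/-!
Rank bound for unipotent commuting families and the count of characters.
-/

namespace Pool.Agent.H93Cone

open Finset Module

/-- Commuting nilpotent endomorphisms push a nonzero invariant subspace into a smaller one. -/
lemma exists_smaller {ι F V : Type*} [Field F] [AddCommGroup V] [Module F V]
    [FiniteDimensional F V] (f : ι → V →ₗ[F] V) (hcomm : ∀ i j v, f i (f j v) = f j (f i v))
    (k : ℕ) (hnil : ∀ i v, ((f i)^[k]) v = 0) (W : Submodule F V) (hW : W ≠ ⊥)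
    (hinv : ∀ i, ∀ v ∈ W, f i v ∈ W) :
    ∃ W₁ : Submodule F V, W₁ < W ∧ (∀ i, ∀ v ∈ W₁, f i v ∈ W₁) ∧ ∀ i, ∀ v ∈ W, f i v ∈ W₁ := by
  classical
  set S : Set (Submodule F V) := {W₁ | W₁ < W ∧ ∀ i, ∀ v ∈ W₁, f i v ∈ W₁} with hS
  have hne : S.Nonempty := ⟨⊥, bot_lt_iff_ne_bot.2 hW, fun i v hv => by
    rw [Submodule.mem_bot] at hv ⊢; rw [hv, map_zero]⟩
  obtain ⟨W₁, hW₁, hmax⟩ := WellFounded.has_min (wellFounded_gt (α := Submodule F V)) S hne
  refine ⟨W₁, hW₁.1, hW₁.2, fun i => ?_⟩
  by_contra hcon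
  push Not at hcon
  obtain ⟨v0, hv0, hv0'⟩ := hcon
  set W₂ : Submodule F V := W₁ ⊔ W.map (f i) with hW₂
  have hle : W₂ ≤ W := sup_le hW₁.1.le (by
    rintro _ ⟨v, hv, rfl⟩; exact hinv i v hv)
  have hinv2 : ∀ j, ∀ v ∈ W₂, f j v ∈ W₂ := by
    intro j v hv
    obtain ⟨a, ha, b, hb, rfl⟩ := Submodule.mem_sup.1 hv
    obtain ⟨c, hc, rfl⟩ := hb
    rw [map_add]
    refine Submodule.add_mem _ (Submodule.mem_sup_left (hW₁.2 j a ha))
      (Submodule.mem_sup_right ⟨f j c, hinv j c hc, ?_⟩)
    exact hcomm i j c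
  have hgt : W₁ < W₂ := by
    refine lt_of_le_of_ne le_sup_left fun h => hv0' ?_
    rw [h]
    exact Submodule.mem_sup_right ⟨v0, hv0, rfl⟩
  have heq : W₂ = W := by
    by_contra hne2
    exact hmax W₂ ⟨lt_of_le_of_ne hle hne2, hinv2⟩ hgt
  -- iterate
  have hiter : ∀ l : ℕ, ∀ v ∈ W, ∃ a ∈ W₁, ∃ w ∈ W, v = a + ((f i)^[l]) w := by
    intro l
    induction l with
    | zero => intro v hv; exact ⟨0, Submodule.zero_mem _, v, hv, by simp⟩
    | succ l ih =>
      intro v hv
      obtain ⟨a, ha, w, hw, rfl⟩ := ih v hv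
      rw [← heq] at hw
      obtain ⟨b, hb, c, hc, rfl⟩ := Submodule.mem_sup.1 hw
      obtain ⟨d, hd, rfl⟩ := hc
      have hit : ∀ l : ℕ, ∀ b ∈ W₁, ((f i)^[l]) b ∈ W₁ := by
        intro l
        induction l with
        | zero => intro b hb; exact hb
        | succ l ih2 => intro b hb; rw [Function.iterate_succ_apply]; exact ih2 _ (hW₁.2 i b hb)
      have hadd : ∀ l : ℕ, ∀ u w, ((f i)^[l]) (u + w) = ((f i)^[l]) u + ((f i)^[l]) w := by
        intro l
        induction l with
        | zero => intro u w; rfl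
        | succ l ih2 =>
          intro u w
          rw [Function.iterate_succ_apply, map_add, ih2, ← Function.iterate_succ_apply,
            ← Function.iterate_succ_apply]
      refine ⟨a + ((f i)^[l]) b, Submodule.add_mem _ ha (hit l b hb), d, hd, ?_⟩
      rw [hadd, Function.iterate_succ_apply]
      abel
  have : W ≤ W₁ := by
    intro v hv
    obtain ⟨a, ha, w, _, rfl⟩ := hiter k v hv
    rw [hnil i w, add_zero]
    exact ha
  exact absurd (lt_of_le_of_lt this hW₁.1) (lt_irrefl _)

lemma finrank_int_le {Q : Type*} [AddCommGroup Q] [Module ℚ Q] [FiniteDimensional ℚ Q]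
    (M : Submodule ℤ Q) (S : Submodule ℚ Q) (hMS : ∀ v ∈ M, v ∈ S) :
    finrank ℤ M ≤ finrank ℚ S := by
  obtain ⟨f, hf⟩ := exists_linearIndependent_of_le_finrank (R := ℤ) (M := M) (le_refl _)
  have h1 : LinearIndependent ℤ (fun i => ((f i : M) : Q)) := by
    have := hf.map' M.subtype (Submodule.ker_subtype M)
    exact this
  have h2 : LinearIndependent ℚ (fun i => ((f i : M) : Q)) :=
    (LinearIndependent.iff_fractionRing ℤ ℚ).1 h1
  have h3 : LinearIndependent ℚ (fun i => (⟨(f i : M), hMS _ (f i).2⟩ : S)) := by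
    apply LinearIndependent.of_comp S.subtype
    exact h2
  have := h3.fintype_card_le_finrank
  simpa using this

/-- The subgroup of group elements moving `x` by an element of `W`. -/
def mover {A V : Type*} [AddCommGroup A] [AddCommGroup V] [Module ℚ V] (N : A → V →ₗ[ℚ] V)
    (hadd : ∀ a b v, N (a + b) v = N a (N b v) + N a v + N b v) (hzero : ∀ v, N 0 v = 0)
    (x : V) (W : Submodule ℚ V) (hinv : ∀ a, ∀ v ∈ W, N a v ∈ W) : Submodule ℤ A :=
  AddSubgroup.toIntSubmodule
    { carrier := {a | N a x ∈ W}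
      zero_mem' := by
        show N 0 x ∈ W
        rw [hzero]; exact Submodule.zero_mem _
      add_mem' := by
        intro a b ha hb
        show N (a + b) x ∈ W
        rw [hadd]
        exact Submodule.add_mem _ (Submodule.add_mem _ (hinv a _ hb) ha) hb
      neg_mem' := by
        intro a ha
        show N (-a) x ∈ W
        have h := hadd (-a) a x
        rw [neg_add_cancel, hzero] at h
        have : N (-a) x = -(N (-a) (N a x)) - N a x := by
          have : N (-a) x = (N (-a) (N a x) + N (-a) x + N a x) - N (-a) (N a x) - N a x := by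
            abel
          rw [this, ← h]; abel
        rw [this]
        exact Submodule.sub_mem _ (Submodule.neg_mem _ (hinv _ _ ha)) ha }

lemma mem_mover {A V : Type*} [AddCommGroup A] [AddCommGroup V] [Module ℚ V]
    (N : A → V →ₗ[ℚ] V)
    (hadd : ∀ a b v, N (a + b) v = N a (N b v) + N a v + N b v) (hzero : ∀ v, N 0 v = 0)
    (x : V) (W : Submodule ℚ V) (hinv : ∀ a, ∀ v ∈ W, N a v ∈ W) (a : A) :
    a ∈ mover N hadd hzero x W hinv ↔ N a x ∈ W := Iff.rfl

/-- Rank bound for a free abelian group acting by commuting unipotents. -/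
lemma unipotent_rank {A V : Type} [AddCommGroup A] [Module.Free ℤ A] [Module.Finite ℤ A]
    [AddCommGroup V] [Module ℚ V] [FiniteDimensional ℚ V] (N : A → V →ₗ[ℚ] V)
    (hadd : ∀ a b v, N (a + b) v = N a (N b v) + N a v + N b v) (hzero : ∀ v, N 0 v = 0)
    (hcomm : ∀ a b v, N a (N b v) = N b (N a v)) (k : ℕ) (hnil : ∀ a v, ((N a)^[k]) v = 0)
    (x : V) (hx : ∀ a, N a (N a x) = 0 → a = 0) (W : Submodule ℚ V) (hW : W ≠ ⊥)
    (hinv : ∀ a, ∀ v ∈ W, N a v ∈ W) :
    finrank ℤ (mover N hadd hzero x W hinv) < finrank ℚ W := by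
  classical
  suffices H : ∀ d : ℕ, ∀ W : Submodule ℚ V, finrank ℚ W = d → W ≠ ⊥ →
      ∀ hinv : (∀ a, ∀ v ∈ W, N a v ∈ W),
      finrank ℤ (mover N hadd hzero x W hinv) < finrank ℚ W from H _ W rfl hW hinv
  intro d
  induction d using Nat.strong_induction_on with
  | _ d ih =>
  intro W hd hW hinv
  obtain ⟨W₁, hlt, hinv1, hpush⟩ := exists_smaller N hcomm k hnil W hW hinv
  have hWpos : 0 < finrank ℚ W := by
    have : Nontrivial W := (Submodule.nontrivial_iff_ne_bot).2 hW
    exact finrank_pos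
  by_cases hbot : W₁ = ⊥
  · have : mover N hadd hzero x W hinv = ⊥ := by
      rw [Submodule.eq_bot_iff]
      intro a ha
      rw [mem_mover] at ha
      have h1 := hpush a _ ha
      rw [hbot, Submodule.mem_bot] at h1
      exact hx a h1
    rw [this, finrank_bot]
    exact hWpos
  · have hIH := ih (finrank ℚ W₁) (hd ▸ Submodule.finrank_lt_finrank_of_lt hlt) W₁ rfl hbot hinv1
    set M := mover N hadd hzero x W hinv with hM
    set M₁ := mover N hadd hzero x W₁ hinv1 with hM₁
    -- the additive map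
    let ψ : M →ₗ[ℤ] (V ⧸ W₁) := AddMonoidHom.toIntLinearMap
      { toFun := fun a => W₁.mkQ (N a.1 x)
        map_zero' := by
          show W₁.mkQ (N 0 x) = 0
          rw [hzero, map_zero]
        map_add' := by
          intro a b
          show W₁.mkQ (N (a.1 + b.1) x) = W₁.mkQ (N a.1 x) + W₁.mkQ (N b.1 x)
          rw [hadd, map_add, map_add]
          have h1 : W₁.mkQ (N a.1 (N b.1 x)) = 0 := by
            rw [Submodule.mkQ_apply, Submodule.Quotient.mk_eq_zero]
            exact hpush a.1 _ ((mem_mover N hadd hzero x W hinv b.1).1 b.2)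
          rw [h1, zero_add] }
    have hψ : ∀ a, ψ a = W₁.mkQ (N a.1 x) := fun a => rfl
    have hker : finrank ℤ (LinearMap.ker ψ) ≤ finrank ℤ M₁ := by
      let g : LinearMap.ker ψ →ₗ[ℤ] M₁ :=
        { toFun := fun a => ⟨a.1.1, by
            have h1 : ψ a.1 = 0 := a.2
            rw [hψ, Submodule.mkQ_apply, Submodule.Quotient.mk_eq_zero] at h1
            exact h1⟩
          map_add' := fun a b => rfl
          map_smul' := fun c a => rfl }
      refine LinearMap.finrank_le_finrank_of_injective (f := g) ?_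
      intro a b hab
      have := congrArg Subtype.val hab
      exact Subtype.ext (Subtype.ext this)
    have hrange : finrank ℤ (LinearMap.range ψ) ≤ finrank ℚ (W.map W₁.mkQ) := by
      refine finrank_int_le _ _ ?_
      rintro _ ⟨a, rfl⟩
      rw [hψ]
      exact ⟨_, (mem_mover N hadd hzero x W hinv a.1).1 a.2, rfl⟩
    have hsum : finrank ℤ M = finrank ℤ (LinearMap.ker ψ) + finrank ℤ (LinearMap.range ψ) := by
      have h1 := LinearMap.rank_range_add_rank_ker ψ
      rw [add_comm, finrank, finrank, finrank, ← h1, Cardinal.toNat_add]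
      · exact Module.rank_lt_aleph0 ℤ _
      · exact Module.rank_lt_aleph0 ℤ _
    have hdim : finrank ℚ (W.map W₁.mkQ) + finrank ℚ W₁ = finrank ℚ W := by
      have h1 := LinearMap.finrank_range_add_finrank_ker (W₁.mkQ.comp W.subtype)
      have h2 : LinearMap.range (W₁.mkQ.comp W.subtype) = W.map W₁.mkQ := by
        rw [LinearMap.range_comp, Submodule.range_subtype]
      have h3 : finrank ℚ (LinearMap.ker (W₁.mkQ.comp W.subtype)) = finrank ℚ W₁ := by
        rw [LinearMap.ker_comp, Submodule.ker_mkQ]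
        exact (Submodule.comapSubtypeEquivOfLe hlt.le).finrank_eq
      rw [h2, h3] at h1
      exact h1
    omega

end Pool.Agent.H93Cone
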