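import Pool.Agent.H93Cone.Weights4

/-!
There are exactly `n` characters when the rank is `n - 1`.
-/

namespace Pool.Agent.H93Cone

open Finset Module

/-- Action of an integer matrix on rational vectors. -/
def qa {n : ℕ} (g : Matrix (Fin n) (Fin n) ℤ) : (Fin n → ℚ) →ₗ[ℚ] (Fin n → ℚ) :=
  Matrix.mulVecLin (g.map (Int.cast : ℤ → ℚ))

lemma qa_mul {n : ℕ} (g h : Matrix (Fin n) (Fin n) ℤ) (v : Fin n → ℚ) :
    qa (g * h) v = qa g (qa h v) := by
  have h1 : (g * h).map (Int.cast : ℤ → ℚ)
      = g.map (Int.cast : ℤ → ℚ) * h.map (Int.cast : ℤ → ℚ) :=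
    Matrix.map_mul (f := Int.castRingHom ℚ) (L := g) (M := h)
  show ((g * h).map (Int.cast : ℤ → ℚ)).mulVec v = _
  rw [h1, ← Matrix.mulVec_mulVec]
  rfl

lemma qa_one {n : ℕ} (v : Fin n → ℚ) : qa (1 : Matrix (Fin n) (Fin n) ℤ) v = v := by
  show ((1 : Matrix (Fin n) (Fin n) ℤ).map (Int.cast : ℤ → ℚ)).mulVec v = v
  simp

/-- complexification of a rational vector -/
noncomputable def cvec {n : ℕ} (w : Fin n → ℚ) : Fin n → ℂ := fun j => (w j : ℂ)

lemma cvec_qa {n : ℕ} (g : Matrix (Fin n) (Fin n) ℤ) (w : Fin n → ℚ) :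
    cvec (qa g w) = (g.map (Int.cast : ℤ → ℂ)).mulVec (cvec w) := by
  funext i
  show (((g.map (Int.cast : ℤ → ℚ)).mulVec w i : ℚ) : ℂ) = _
  simp [Matrix.mulVec, dotProduct, cvec]

lemma dot_cvec_qa {n : ℕ} (g : Matrix (Fin n) (Fin n) ℤ) (η : Fin n → ℂ) (w : Fin n → ℚ) :
    η ⬝ᵥ cvec (qa g w) = lc g η ⬝ᵥ cvec w := by
  rw [cvec_qa, Matrix.dotProduct_mulVec, lc_apply]

variable {r n : ℕ} {φ : (Fin r → ℤ) → Matrix (Fin n) (Fin n) ℤ}

/-- `φ(z) - 1` on rational vectors -/
def Nq (φ : (Fin r → ℤ) → Matrix (Fin n) (Fin n) ℤ) (z : Fin r → ℤ) :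
    (Fin n → ℚ) →ₗ[ℚ] (Fin n → ℚ) := qa (φ z) - LinearMap.id

lemma Nq_apply (z : Fin r → ℤ) (v : Fin n → ℚ) : Nq φ z v = qa (φ z) v - v := rfl

/-- rational vectors killed by all eigenvectors -/
noncomputable def Jsub (φ : (Fin r → ℤ) → Matrix (Fin n) (Fin n) ℤ) :
    Submodule ℚ (Fin n → ℚ) where
  carrier := {w | ∀ χ : Chars φ, eigv χ ⬝ᵥ cvec w = 0}
  zero_mem' := by
    intro χ
    have : cvec (0 : Fin n → ℚ) = 0 := by funext j; simp [cvec]
    rw [this, dotProduct_zero]
  add_mem' := by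
    intro a b ha hb χ
    have : cvec (a + b) = cvec a + cvec b := by funext j; simp [cvec]
    rw [this, dotProduct_add, ha χ, hb χ, add_zero]
  smul_mem' := by
    intro c a ha χ
    have : cvec (c • a) = (c : ℂ) • cvec a := by funext j; simp [cvec]
    rw [this, dotProduct_smul, ha χ, smul_zero]

lemma mem_Jsub (w : Fin n → ℚ) : w ∈ Jsub φ ↔ ∀ χ : Chars φ, eigv χ ⬝ᵥ cvec w = 0 := Iff.rfl

lemma Jsub_card (h : IsRep φ) [Fintype (Chars φ)] :
    finrank ℚ (Jsub φ) + Fintype.card (Chars φ) ≤ n := by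
  classical
  set k := finrank ℚ (Jsub φ) with hk
  let b : Basis (Fin k) ℚ (Jsub φ) := finBasis ℚ (Jsub φ)
  let w : Fin k → (Fin n → ℚ) := fun i => (b i : Fin n → ℚ)
  have hw : LinearIndependent ℚ w := by
    have := b.linearIndependent.map' (Jsub φ).subtype (Submodule.ker_subtype _)
    exact this
  -- a left inverse
  have hinj : LinearMap.ker (Fintype.linearCombination ℚ w) = ⊥ := by
    rw [LinearMap.ker_eq_bot]
    exact hw.fintypeLinearCombination_injective
  obtain ⟨g, hg⟩ := LinearMap.exists_leftInverse_of_injective _ hinj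
  have hg1 : ∀ i l, g (w i) l = if i = l then (1 : ℚ) else 0 := by
    intro i l
    have h1 := LinearMap.congr_fun hg (Pi.single i 1)
    rw [LinearMap.comp_apply, Fintype.linearCombination_apply_single, one_smul,
      LinearMap.id_apply] at h1
    rw [h1, Pi.single_apply]
    simp [eq_comm]
  let B : Fin k → (Fin n → ℚ) := fun l j => g (Pi.single j 1) l
  have hB : ∀ i l, ∑ j, B l j * w i j = if i = l then (1 : ℚ) else 0 := by
    intro i l
    rw [← hg1 i l]
    have hx : w i = ∑ j, w i j • (Pi.single j (1 : ℚ) : Fin n → ℚ) := by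
      funext j
      simp [Finset.sum_apply, Pi.single_apply]
    conv_rhs => rw [hx]
    rw [map_sum, Finset.sum_apply]
    refine Finset.sum_congr rfl fun j _ => ?_
    rw [map_smul, Pi.smul_apply, smul_eq_mul, mul_comm]
  -- the complex evaluation map
  let T : (Fin n → ℂ) →ₗ[ℂ] (Fin k → ℂ) :=
    { toFun := fun η i => η ⬝ᵥ cvec (w i)
      map_add' := fun a c => by funext i; simp [add_dotProduct]
      map_smul' := fun a c => by funext i; simp [smul_dotProduct] }
  have hT : ∀ η i, T η i = η ⬝ᵥ cvec (w i) := fun _ _ => rfl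
  have hTB : ∀ l, T (cvec (B l)) = Pi.single l 1 := by
    intro l
    funext i
    rw [hT, dotProduct]
    have h1 : ∑ j, cvec (B l) j * cvec (w i) j = ((∑ j, B l j * w i j : ℚ) : ℂ) := by
      simp [cvec]
    rw [h1, hB, Pi.single_apply]
    split_ifs <;> simp
  have hsurj : Function.Surjective T := by
    intro y
    refine ⟨∑ l, y l • cvec (B l), ?_⟩
    rw [map_sum]
    simp only [map_smul, hTB]
    funext j
    simp [Finset.sum_apply, Pi.single_apply]
  have h1 := LinearMap.finrank_range_add_finrank_ker T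
  rw [LinearMap.range_eq_top.2 hsurj, finrank_top, finrank_fintype_fun_eq_card,
    finrank_fintype_fun_eq_card, Fintype.card_fin, Fintype.card_fin] at h1
  have hmem : ∀ χ : Chars φ, eigv χ ∈ LinearMap.ker T := by
    intro χ
    rw [LinearMap.mem_ker]
    funext i
    rw [hT]
    exact (b i).2 χ
  have h2 : LinearIndependent ℂ (fun χ : Chars φ => (⟨eigv χ, hmem χ⟩ : LinearMap.ker T)) := by
    apply LinearIndependent.of_comp (LinearMap.ker T).subtype
    exact eigv_indep h
  have h3 := h2.fintype_card_le_finrank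
  omega

theorem chars_card (hr : r + 1 = n) (h : IsRep φ) [Fintype (Chars φ)] (x : Fin n → ℚ)
    (hx : ∀ z, Nq φ z (Nq φ z x) = 0 → z = 0) :
    Fintype.card (Chars φ) = n ∧ finrank ℝ (Submodule.span ℝ (Set.range (Lam h))) = r := by
  classical
  have hn : 0 < n := by omega
  obtain ⟨hr1, hr2⟩ := finrank_range_le hn h
  have hr3 := finrank_ker_add h
  have hJ := Jsub_card h
  obtain ⟨m, hm, hunip⟩ := exists_unipotent_power h
  suffices hker : finrank ℤ (LinearMap.ker (Lam h)) = 0 by
    refine ⟨?_, ?_⟩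
    · omega
    · omega
  by_contra hpos
  -- the unipotent family
  set U := LinearMap.ker (Lam h) with hU
  let N : U → (Fin n → ℚ) →ₗ[ℚ] (Fin n → ℚ) := fun z => Nq φ (m • z.1)
  have hN : ∀ z v, N z v = qa (φ (m • z.1)) v - v := fun z v => rfl
  have hadd : ∀ a b v, N (a + b) v = N a (N b v) + N a v + N b v := by
    intro a b v
    have e : m • (a + b).1 = m • a.1 + m • b.1 := by
      show m • (a.1 + b.1) = _
      rw [smul_add]
    rw [hN, hN, hN, hN, e, h.add, qa_mul, map_sub]
    abel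
  have hzero : ∀ v, N 0 v = 0 := by
    intro v
    have e : m • (0 : U).1 = 0 := by
      show m • (0 : Fin r → ℤ) = 0
      rw [smul_zero]
    rw [hN, e, h.zero, qa_one, sub_self]
  have hcomm : ∀ a b v, N a (N b v) = N b (N a v) := by
    intro a b v
    rw [hN, hN, hN, hN, map_sub, map_sub, ← qa_mul, ← qa_mul, h.comm]
    abel
  have hnil : ∀ a v, ((N a)^[n]) v = 0 := by
    intro a v
    have h1 := (hunip a.1 a.2).2
    have key : ∀ l : ℕ, ∀ v, ((N a)^[l]) v = qa ((φ (m • a.1) - 1) ^ l) v := by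
      intro l
      induction l with
      | zero => intro v; rw [pow_zero, qa_one]; rfl
      | succ l ih =>
        intro v
        rw [Function.iterate_succ_apply, ih, pow_succ, qa_mul, hN]
        congr 1
        have : qa (φ (m • a.1) - 1) v = qa (φ (m • a.1)) v - qa 1 v := by
          show ((φ (m • a.1) - 1).map (Int.cast : ℤ → ℚ)).mulVec v = _
          have e : (φ (m • a.1) - 1).map (Int.cast : ℤ → ℚ)
              = (φ (m • a.1)).map (Int.cast : ℤ → ℚ)
                - (1 : Matrix (Fin n) (Fin n) ℤ).map (Int.cast : ℤ → ℚ) := by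
            ext i j; by_cases hij : i = j <;> simp [Matrix.one_apply, hij]
          rw [e, Matrix.sub_mulVec]
          rfl
        rw [this, qa_one]
    rw [key, h1]
    show ((0 : Matrix (Fin n) (Fin n) ℤ).map (Int.cast : ℤ → ℚ)).mulVec v = 0
    simp
  have hx' : ∀ a, N a (N a x) = 0 → a = 0 := by
    intro a ha
    have h1 := hx (m • a.1) ha
    have h2 : a.1 = 0 := by
      rcases smul_eq_zero.1 h1 with h3 | h3
      · omega
      · exact h3
    exact Subtype.ext h2
  have hJmem : ∀ (a : U) v, N a v ∈ Jsub φ := by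
    intro a v
    rw [mem_Jsub]
    intro χ
    have h1 : cvec (N a v) = cvec (qa (φ (m • a.1)) v) - cvec v := by
      funext j; simp [cvec, hN]
    rw [h1, dotProduct_sub, dot_cvec_qa, lc_eigv, (hunip a.1 a.2).1 χ, one_smul, sub_self]
  have hJinv : ∀ a, ∀ v ∈ Jsub φ, N a v ∈ Jsub φ := fun a v _ => hJmem a v
  have hnt : Nontrivial U := by
    rw [← not_subsingleton_iff_nontrivial]
    intro hs
    exact hpos (finrank_zero_of_subsingleton)
  have hJbot : Jsub φ ≠ ⊥ := by
    obtain ⟨a, ha⟩ := exists_ne (0 : U)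
    rw [Submodule.ne_bot_iff]
    refine ⟨N a x, hJmem a x, fun h0 => ha (hx' a ?_)⟩
    rw [h0, map_zero]
  have hrank := unipotent_rank N hadd hzero hcomm n hnil x hx' (Jsub φ) hJbot hJinv
  have htop : mover N hadd hzero x (Jsub φ) hJinv = ⊤ := by
    rw [eq_top_iff]
    intro a _
    exact hJmem a x
  rw [htop, finrank_top] at hrank
  omega

end Pool.Agent.H93Cone
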